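import Mathlib

/-!
Countable functions with integer values, closing-off lemmas, supports and a
delta-system type lemma.
-/

namespace Pool.Agent.Lib.MP_fe6d4f_gt

open Cardinal Set Classical

theorem exists_surj {α β : Type} [Nonempty β] (h : #β ≤ #α) : ∃ f : α → β, f.Surjective := by
  obtain ⟨g⟩ := (Cardinal.le_def _ _).1 h
  exact ⟨Function.invFun g, Function.invFun_surjective g.injective⟩

/-- Closing off under an operation on small sets. -/
theorem exists_closed {X : Type} [Nonempty X] {c l : Cardinal.{0}} (hc : ℵ₀ ≤ c)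
    (hl : c ^ l ≤ c) (F : Set X → Set X) (hF : ∀ s : Set X, #s ≤ l → #(F s) ≤ c) :
    ∃ S : Set X, #S ≤ c ∧ ∀ s ⊆ S, #s ≤ l → F s ⊆ S := by
  have hJ : #c.out = c := mk_out _
  have hL : #l.out = l := mk_out _
  have hp : ∀ s : Set X, ∃ g : c.out → X, #s ≤ l → F s ⊆ range g := by
    intro s
    by_cases hs : #s ≤ l
    · rcases (F s).eq_empty_or_nonempty with h | h
      · exact ⟨fun _ => Classical.arbitrary X, fun _ => by rw [h]; exact empty_subset _⟩
      · have := h.to_subtype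
        obtain ⟨g, hg⟩ := exists_surj (α := c.out) (β := F s) (by rw [hJ]; exact hF s hs)
        refine ⟨fun j => (g j).1, fun _ x hx => ?_⟩
        obtain ⟨j, hj⟩ := hg ⟨x, hx⟩
        exact ⟨j, by simp [hj]⟩
    · exact ⟨fun _ => Classical.arbitrary X, fun h => (hs h).elim⟩
  choose g hg using hp
  let β : c.out × Bool → Type := fun a => {_l : l.out // a.2 = true}
  let v : WType β → X := fun w => WType.rec (fun a _ ih => g (range ih) a.1) w
  have hv : ∀ a f, v (WType.mk a f) = g (range fun i => v (f i)) a.1 := fun _ _ => rfl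
  refine ⟨range v, mk_range_le.trans (WType.cardinalMk_le_of_le ?_), ?_⟩
  · refine (sum_le_sum _ (fun _ => c) fun a => ?_).trans ?_
    · refine le_trans (power_le_power_left (aleph0_pos.trans_le hc).ne' ?_) hl
      exact (mk_subtype_le _).trans hL.le
    · rw [sum_const']
      refine mul_le_of_le hc ?_ le_rfl
      simp only [mk_prod, lift_id, mk_bool, hJ]
      exact mul_le_of_le hc le_rfl
        (by exact_mod_cast (natCast_lt_aleph0 (n := 2)).le.trans hc)
  · intro s hs hl x hx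
    obtain ⟨j, rfl⟩ := hg s hl hx
    rcases s.eq_empty_or_nonempty with h | h
    · refine ⟨WType.mk (j, false) fun i => absurd i.2 (by simp), ?_⟩
      rw [hv, h]
      congr 1
      ext y
      simp only [mem_range, mem_empty_iff_false, iff_false, not_exists]
      intro i
      exact absurd i.2 (by simp)
    · have := h.to_subtype
      obtain ⟨e, he⟩ := exists_surj (α := l.out) (β := s) (by rw [hL]; exact hl)
      choose u hu using fun y : s => hs y.2
      refine ⟨WType.mk (j, true) fun i => u (e i.1), ?_⟩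
      rw [hv]
      congr 1
      ext y
      simp only [mem_range, hu]
      constructor
      · rintro ⟨i, rfl⟩
        exact (e i.1).2
      · intro hy
        obtain ⟨l, hl⟩ := he ⟨y, hy⟩
        exact ⟨⟨l, rfl⟩, by simp [hl]⟩

theorem mk_iUnion_le_of {X ι : Type} {c : Cardinal.{0}} (hc : ℵ₀ ≤ c) (f : ι → Set X)
    (hι : #ι ≤ c) (hf : ∀ i, #(f i) ≤ c) : #(⋃ i, f i) ≤ c := by
  refine mk_iUnion_le_sum_mk.trans ?_
  refine (sum_le_sum _ (fun _ => c) hf).trans ?_
  rw [sum_const']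
  exact mul_le_of_le hc hι le_rfl

theorem mk_prod_le_of {A B : Type} {c : Cardinal.{0}} (hc : ℵ₀ ≤ c) (hA : #A ≤ c)
    (hB : #B ≤ c) : #(A × B) ≤ c := by
  simp only [mk_prod, lift_id]
  exact mul_le_of_le hc hA hB

theorem mk_option_le_of {A : Type} {c : Cardinal.{0}} (hc : ℵ₀ ≤ c) (hA : #A ≤ c) :
    #(Option A) ≤ c := by
  rw [mk_option]
  exact add_le_of_le hc hA (one_le_aleph0.trans hc)

theorem mk_fun_le_of {A B : Type} {c l : Cardinal.{0}} (hc : ℵ₀ ≤ c) (hl : c ^ l ≤ c)
    (hA : #A ≤ l) (hB : #B ≤ c) : #(A → B) ≤ c := by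
  rw [← power_def]
  exact (power_le_power_right hB).trans
    ((power_le_power_left (aleph0_pos.trans_le hc).ne' hA).trans hl)

/-- Transfinite recursion with choice. -/
theorem exists_rec {Θ : Type} [LinearOrder Θ] [WellFoundedLT Θ] {D : Type 1} [Nonempty D]
    (Good : D → Prop) (R : D → D → Prop)
    (h : ∀ i : Θ, ∀ f : Iio i → D, (∀ j, Good (f j)) → ∃ d, Good d ∧ ∀ j, R (f j) d) :
    ∃ f : Θ → D, (∀ i, Good (f i)) ∧ ∀ i j, j < i → R (f j) (f i) := by
  let st : ∀ i : Θ, (Iio i → D) → D := fun i f =>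
    if hf : ∀ j, Good (f j) then (h i f hf).choose else Classical.arbitrary D
  let f : Θ → D := (wellFounded_lt (α := Θ)).fix fun i g => st i fun j => g j.1 j.2
  have hf : ∀ i, f i = st i fun j => f j.1 := fun i => WellFounded.fix_eq _ _ _
  have hg : ∀ i, Good (f i) := by
    intro i
    induction i using WellFoundedLT.induction with
    | ind i ih =>
      have h1 : ∀ j : Iio i, Good (f j.1) := fun j => ih j.1 j.2
      rw [hf]
      simp only [st, dif_pos h1]
      exact (h i _ h1).choose_spec.1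
  refine ⟨f, hg, fun i j hj => ?_⟩
  have h1 : ∀ j : Iio i, Good (f j.1) := fun j => hg j.1
  have h2 := (h i _ h1).choose_spec.2 ⟨j, hj⟩
  rw [hf i]
  simp only [st, dif_pos h1]
  exact h2

/-- Integer valued functions with countable domain. -/
def Fn (X : Type) : Type := {p : X → Option ℤ // {x | p x ≠ none}.Countable}

namespace Fn

variable {X K : Type}

instance : Preorder (Fn X) where
  le q p := ∀ x v, p.1 x = some v → q.1 x = some v
  le_refl _ _ _ h := h
  le_trans _ _ _ h1 h2 x v h := h1 x v (h2 x v h)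

theorem le_def {q p : Fn X} : q ≤ p ↔ ∀ x v, p.1 x = some v → q.1 x = some v := Iff.rfl

instance : OrderTop (Fn X) where
  top := ⟨fun _ => none, by simp⟩
  le_top _ _ _ h := by cases h

def dom (p : Fn X) : Set X := {x | p.1 x ≠ none}

theorem dom_countable (p : Fn X) : p.dom.Countable := p.2

theorem mk_dom (p : Fn X) : #p.dom ≤ ℵ₀ := le_aleph0_iff_set_countable.2 p.2

theorem exists_common {p q : Fn X} (h : ∀ x v w, p.1 x = some v → q.1 x = some w → v = w) :
    ∃ r, r ≤ p ∧ r ≤ q := by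
  refine ⟨⟨fun x => if p.1 x = none then q.1 x else p.1 x, (p.2.union q.2).mono ?_⟩, ?_, ?_⟩
  · intro x hx
    by_cases h1 : p.1 x = none
    · right
      simpa [h1] using hx
    · exact Or.inl h1
  · intro x v hv
    simp [hv]
  · intro x v hv
    by_cases h1 : p.1 x = none
    · simp [h1, hv]
    · obtain ⟨w, hw⟩ := Option.ne_none_iff_exists'.1 h1
      simp [hw, h x w v hw hv]

theorem exists_lb {s : ℕ → Fn X} (hs : Antitone s) :
    ∃ q, (∀ n, q ≤ s n) ∧ ∀ x v, q.1 x = some v → ∃ n, (s n).1 x = some v := by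
  refine ⟨⟨fun x => if h : ∃ n, (s n).1 x ≠ none then (s h.choose).1 x else none,
    (countable_iUnion fun n => (s n).2).mono ?_⟩, ?_, ?_⟩
  · intro x hx
    by_contra hc
    apply hx
    simp only
    rw [dif_neg]
    rintro ⟨n, hn⟩
    exact hc (mem_iUnion.2 ⟨n, hn⟩)
  · intro n x v hv
    have h : ∃ n, (s n).1 x ≠ none := ⟨n, by simp [hv]⟩
    simp only [dif_pos h]
    obtain ⟨w, hw⟩ := Option.ne_none_iff_exists'.1 h.choose_spec
    rcases le_total n h.choose with h1 | h1
    · exact hs h1 x v hv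
    · have := hs h1 x w hw
      rw [hw, ← this, hv]
  · intro x v hv
    simp only at hv
    split_ifs at hv with h
    exact ⟨_, hv⟩

/-- Countably many dense open sets meet below any condition. -/
theorem dense_all {ι : Type*} [Countable ι] (D : ι → Fn X → Prop)
    (hm : ∀ i p q, D i p → q ≤ p → D i q) (p : Fn X) (hd : ∀ i, ∀ q ≤ p, ∃ r ≤ q, D i r) :
    ∃ q ≤ p, ∀ i, D i q := by
  obtain ⟨e, he⟩ := exists_surjective_nat (Option ι)
  have h1 : ∀ (o : Option ι) (q : {q // q ≤ p}), ∃ r : {q // q ≤ p}, r.1 ≤ q.1 ∧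
      ∀ i, o = some i → D i r.1 := by
    rintro (_ | i) q
    · exact ⟨q, le_rfl, fun _ h => by cases h⟩
    · obtain ⟨r, r1, r2⟩ := hd i q.1 q.2
      exact ⟨⟨r, r1.trans q.2⟩, r1, fun _ h => by cases h; exact r2⟩
  choose nx n1 n2 using h1
  let s : ℕ → {q // q ≤ p} := fun n => Nat.rec ⟨p, le_rfl⟩ (fun k q => nx (e k) q) n
  obtain ⟨q, hq, -⟩ := exists_lb (s := fun n => (s n).1)
    (antitone_nat_of_succ_le fun k => n1 (e k) (s k))
  refine ⟨q, hq 0, fun i => ?_⟩
  obtain ⟨k, hk⟩ := he (some i)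
  exact hm i _ _ (n2 (e k) (s k) i hk) (hq (k + 1))

noncomputable def res (p : Fn X) (a : Set X) : Fn X :=
  ⟨fun x => if x ∈ a then p.1 x else none, p.2.mono fun x hx => by
    by_cases h : x ∈ a
    · simpa [h] using hx
    · simp [h] at hx⟩

theorem le_res (p : Fn X) (a : Set X) : p ≤ p.res a := by
  intro x v h
  by_cases h1 : x ∈ a
  · simpa [res, h1] using h
  · simp [res, h1] at h

theorem dom_res (p : Fn X) (a : Set X) : (p.res a).dom ⊆ a := by
  intro x hx
  by_contra h
  simp [dom, res, h] at hx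

theorem common_of_res {q q' : Fn X} {a : Set X} (h1 : q'.dom ⊆ a) (h2 : q' ≤ q.res a) :
    ∃ r, r ≤ q ∧ r ≤ q' := by
  refine exists_common fun x v w hv hw => ?_
  have hx : x ∈ a := h1 (by simp [dom, hw])
  have := h2 x v (by simp [res, hx, hv])
  rw [hw] at this
  exact (Option.some.inj this).symm

def pull (α : K ↪ X) (q : Fn X) : Fn K :=
  ⟨fun k => q.1 (α k), q.2.preimage_of_injOn α.injective.injOn⟩

theorem pull_mono (α : K ↪ X) {q p : Fn X} (h : q ≤ p) : pull α q ≤ pull α p :=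
  fun k v hv => h (α k) v hv

theorem le_of_pull {α : K ↪ X} {q p : Fn X} (hp : p.dom ⊆ range α) (h : pull α q ≤ pull α p) :
    q ≤ p := by
  intro x v hv
  obtain ⟨k, rfl⟩ := hp (show x ∈ p.dom by simp [dom, hv])
  exact h k v hv

theorem exists_push (α : K ↪ X) (u : Fn K) (t : Fn X)
    (h : ∀ k v w, u.1 k = some v → t.1 (α k) = some w → v = w) : ∃ q ≤ t, pull α q ≤ u := by
  let s : Fn X := ⟨fun x => if h : ∃ k, α k = x then u.1 h.choose else none,
    (u.2.image α).mono fun x hx => by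
      by_cases h : ∃ k, α k = x
      · refine ⟨h.choose, ?_, h.choose_spec⟩
        simpa only [mem_ofPred_eq, dif_pos h] using hx
      · exact (hx (dif_neg h)).elim⟩
  have hs : ∀ k, s.1 (α k) = u.1 k := by
    intro k
    have h : ∃ k', α k' = α k := ⟨k, rfl⟩
    simp only [s, dif_pos h]
    rw [α.injective h.choose_spec]
  obtain ⟨r, r1, r2⟩ := exists_common (p := s) (q := t) (by
    intro x v w hv hw
    by_cases h1 : ∃ k, α k = x
    · obtain ⟨k, rfl⟩ := h1
      exact h k v w (by rw [← hs, hv]) hw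
    · simp [s, dif_neg h1] at hv)
  exact ⟨r, r2, fun k v hv => r1 _ v (by rw [hs, hv])⟩

theorem mk_le {c : Cardinal.{0}} (hc : ℵ₀ ≤ c) (hl : c ^ ℵ₀ ≤ c) (hX : #X ≤ c) :
    #(Fn X) ≤ c := by
  have h1 : ∀ p : Fn X, ∃ g : ℕ → Option (X × ℤ), ∀ x v, p.1 x = some v ↔ some (x, v) ∈ range g := by
    intro p
    have hc : {z : Option (X × ℤ) | z = none ∨ ∃ x v, p.1 x = some v ∧ z = some (x, v)}.Countable := by
      refine ((countable_singleton none).union
        ((p.2.prod (countable_univ (α := ℤ))).image some)).mono ?_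
      rintro z (rfl | ⟨x, v, h, rfl⟩)
      · exact Or.inl rfl
      · exact Or.inr ⟨(x, v), ⟨by simp [h], trivial⟩, rfl⟩
    obtain ⟨g, hg⟩ := hc.exists_eq_range ⟨none, Or.inl rfl⟩
    refine ⟨g, fun x v => ?_⟩
    rw [← hg]
    simp
  choose g hg using h1
  have hi : Function.Injective g := by
    intro p q h
    refine Subtype.ext (funext fun x => Option.ext fun v => ?_)
    rw [hg, hg, h]
  refine (mk_le_of_injective hi).trans (mk_fun_le_of hc hl (by simp) ?_)
  exact mk_option_le_of hc (mk_prod_le_of hc hX (by simpa using hc))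

theorem mk_dom_sub {a : Set X} (ha : #a ≤ 𝔠) : #{t : Fn X | t.dom ⊆ a} ≤ 𝔠 := by
  refine le_trans (mk_le_of_injective (f := fun t : {t : Fn X | t.dom ⊆ a} =>
    pull (Function.Embedding.subtype (· ∈ a)) t.1) ?_)
    (mk_le aleph0_le_continuum (by simp) ha)
  intro s t h
  have h1 : ∀ s t : {t : Fn X | t.dom ⊆ a}, pull (Function.Embedding.subtype (· ∈ a)) s.1 =
      pull (Function.Embedding.subtype (· ∈ a)) t.1 → s.1 ≤ t.1 := fun s t h =>
    le_of_pull (α := Function.Embedding.subtype (· ∈ a))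
      (fun x hx => ⟨⟨x, t.2 hx⟩, rfl⟩) h.le
  exact Subtype.ext (Subtype.ext (funext fun x => Option.ext fun v =>
    ⟨h1 t s h.symm x v, h1 s t h x v⟩))

/-- Supports. -/
theorem exists_supp [Nonempty X] {Z : Type} (hZ : #Z ≤ 𝔠) (D : Z → Fn X → Prop) (a0 : Set X)
    (ha : #a0 ≤ 𝔠) : ∃ a : Set X, a0 ⊆ a ∧ #a ≤ 𝔠 ∧
      ∀ z q, D z q → ∃ q', D z q' ∧ q'.dom ⊆ a ∧ q' ≤ q.res a := by
  have h1 : ∀ z t, ∃ q', (∃ q, D z q ∧ q ≤ t) → D z q' ∧ q' ≤ t := by
    intro z t
    by_cases h : ∃ q, D z q ∧ q ≤ t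
    · exact ⟨h.choose, fun _ => h.choose_spec⟩
    · exact ⟨⊤, fun h' => (h h').elim⟩
  choose ch hch using h1
  obtain ⟨a, a1, a2⟩ := exists_closed (X := X) (c := 𝔠) (l := ℵ₀) aleph0_le_continuum (by simp)
    (fun s => a0 ∪ ⋃ u : Z × {t : Fn X | t.dom ⊆ s}, (ch u.1 u.2.1).dom) (by
      intro s hs
      refine (mk_union_le _ _).trans (add_le_of_le aleph0_le_continuum ha ?_)
      exact mk_iUnion_le_of aleph0_le_continuum _ (mk_prod_le_of aleph0_le_continuum hZ
        (mk_dom_sub (hs.trans aleph0_le_continuum)))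
        fun u => (mk_dom _).trans aleph0_le_continuum)
  refine ⟨a, subset_union_left.trans (a2 ∅ (empty_subset _) (by simp)), a1, fun z q hq => ?_⟩
  obtain ⟨h2, h3⟩ := hch z (q.res a) ⟨q, hq, le_res q a⟩
  refine ⟨_, h2, ?_, h3⟩
  refine subset_trans ?_ (subset_union_right.trans (a2 _ (dom_res q a) (mk_dom _)))
  exact subset_iUnion (fun u : Z × {t : Fn X | t.dom ⊆ (q.res a).dom} => (ch u.1 u.2.1).dom)
    (z, ⟨q.res a, fun _ h => h⟩)

/-- Small predense subsets. -/
theorem exists_predense [Nonempty X] (D : Fn X → Prop) : ∃ A : Set (Fn X), #A ≤ 𝔠 ∧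
    (∀ q ∈ A, D q) ∧ ∀ q, D q → ∃ q' ∈ A, ∃ r, r ≤ q ∧ r ≤ q' := by
  obtain ⟨a, -, a1, a2⟩ := exists_supp (X := X) (Z := Unit)
    (by simpa using one_le_aleph0.trans aleph0_le_continuum) (fun _ => D) ∅ (by simp)
  refine ⟨{q | D q ∧ q.dom ⊆ a}, (mk_le_mk_of_subset fun q hq => hq.2).trans (mk_dom_sub a1),
    fun q hq => hq.1, fun q hq => ?_⟩
  obtain ⟨q', h1, h2, h3⟩ := a2 () q hq
  exact ⟨q', ⟨h1, h2⟩, common_of_res h2 h3⟩

end Fn

/-- The cardinal `2 ^ 𝔠`. -/
noncomputable def nu : Cardinal.{0} := 2 ^ 𝔠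

theorem c_le_nu : 𝔠 ≤ nu := (cantor _).le

theorem nu_inf : ℵ₀ ≤ nu := aleph0_le_continuum.trans c_le_nu

theorem nu_pow : nu ^ 𝔠 ≤ nu := by
  rw [nu, ← power_mul, mul_eq_self aleph0_le_continuum]

/-- The well-order of type the successor of `nu`. -/
def Th : Type := (Order.succ nu).ord.ToType

noncomputable instance : LinearOrder Th :=
  inferInstanceAs (LinearOrder (Order.succ nu).ord.ToType)

instance : WellFoundedLT Th := inferInstanceAs (WellFoundedLT (Order.succ nu).ord.ToType)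

theorem small_Iio (a : Th) : #(Iio a) ≤ nu := by
  have : #(Iio a) = (Ordinal.typein (α := (Order.succ nu).ord.ToType) (· < ·) a).card := rfl
  rw [this, ← Order.lt_succ_iff, ← lt_ord]
  exact Ordinal.typein_lt_self _

theorem bdd {ι : Type} (h : #ι ≤ nu) (f : ι → Th) : ∃ a, ∀ i, f i < a := by
  by_contra hc
  push Not at hc
  have h1 : (univ : Set Th) ⊆ ⋃ i, Iic (f i) := fun a _ => mem_iUnion.2 (hc a)
  have h2 : #(⋃ i, Iic (f i)) ≤ nu := by
    refine mk_iUnion_le_of nu_inf _ h fun i => ?_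
    rw [← Iio_insert]
    exact mk_insert_le.trans (add_le_of_le nu_inf (small_Iio _) (one_le_aleph0.trans nu_inf))
  have h3 := (mk_le_mk_of_subset h1).trans h2
  rw [mk_univ, show #Th = Order.succ nu from mk_ord_toType _] at h3
  exact absurd h3 (not_le.2 (Order.lt_succ _))

/-- A delta-system type lemma. -/
theorem exists_rich {X K T : Type} [Nonempty X] (hK : #K ≤ 𝔠) (hT : #T ≤ nu) (α : Th → K → X)
    (τ : Th → T) : ∃ σ : K → Option X, ∃ t : T, ∀ b : Set X, b.Countable → ∀ i0, ∃ i, i0 < i ∧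
      τ i = t ∧ ∀ k, (∀ x, σ k = some x → α i k = x) ∧ (σ k = none → α i k ∉ b) := by
  by_contra hc
  push Not at hc
  choose b hb i0 hi using hc
  have hcount : ∀ s : Set X, #s ≤ nu → #((K → Option s) × T) ≤ nu := fun s hs =>
    mk_prod_le_of nu_inf (mk_fun_le_of nu_inf nu_pow hK (mk_option_le_of nu_inf hs)) hT
  obtain ⟨R, r1, r2⟩ := exists_closed (X := X) (c := nu) (l := 𝔠) nu_inf nu_pow
    (fun s => ⋃ u : (K → Option s) × T, b (fun k => (u.1 k).map Subtype.val) u.2) (by
      intro s hs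
      exact mk_iUnion_le_of nu_inf _ (hcount s (hs.trans c_le_nu)) fun u =>
        (le_aleph0_iff_set_countable.2 (hb _ _)).trans nu_inf)
  obtain ⟨i, hi'⟩ := bdd (hcount R r1) fun u => i0 (fun k => (u.1 k).map Subtype.val) u.2
  let σ : K → Option X := fun k => if α i k ∈ R then some (α i k) else none
  have e1 : ∀ s : Set X, (∀ k, α i k ∈ R → α i k ∈ s) → ∃ u : K → Option s,
      (fun k => (u k).map Subtype.val) = σ := by
    intro s hs
    refine ⟨fun k => if h : α i k ∈ R then some ⟨α i k, hs k h⟩ else none, funext fun k => ?_⟩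
    by_cases h : α i k ∈ R <;> simp [σ, h]
  obtain ⟨u, hu⟩ := e1 R fun _ h => h
  have h1 := hi' (u, τ i)
  simp only [hu] at h1
  obtain ⟨k, hk⟩ := hi σ (τ i) i h1 rfl
  obtain ⟨u', hu'⟩ := e1 (range (α i) ∩ R) fun k h => ⟨⟨k, rfl⟩, h⟩
  have h2 : b σ (τ i) ⊆ R := by
    refine subset_trans ?_ (r2 (range (α i) ∩ R) inter_subset_right
      ((mk_le_mk_of_subset inter_subset_left).trans (mk_range_le.trans hK)))
    rw [← hu']
    exact subset_iUnion (fun u : (K → Option ↑(range (α i) ∩ R)) × T =>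
      b (fun k => (u.1 k).map Subtype.val) u.2) (u', τ i)
  obtain ⟨h3, h4⟩ := hk (by
    intro x hx
    by_cases h : α i k ∈ R
    · simpa [σ, h] using hx
    · simp [σ, h] at hx)
  have := h2 h4
  simp [σ, this] at h3

end Pool.Agent.Lib.MP_fe6d4f_gt
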