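import Mathlib
import Pool.Agent.Lib.MP_fe6d4f_gt.Poset

/-!
Forced group topologies with a dense relatively sequentially compact set.
-/

namespace Pool.Agent.Lib.MP_fe6d4f_gt

open Cardinal Set Classical

theorem exists_seq {A : Type*} (a0 : A) (P : ℕ → A → Prop) (R : ℕ → A → A → Prop)
    (h0 : P 0 a0) (h : ∀ n a, P n a → ∃ b, P (n + 1) b ∧ R n a b) :
    ∃ f : ℕ → A, f 0 = a0 ∧ ∀ n, P n (f n) ∧ R n (f n) (f (n + 1)) := by
  choose nx n1 n2 using h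
  let s : ∀ n, {a // P n a} := fun n =>
    Nat.rec (motive := fun n => {a // P n a}) ⟨a0, h0⟩ (fun k a => ⟨nx k a.1 a.2, n1 k a.1 a.2⟩) n
  exact ⟨fun n => (s n).1, rfl, fun n => ⟨(s n).2, n2 n (s n).1 (s n).2⟩⟩

/-- What a condition `p0` forces about a group topology and the range of a winning strategy. -/
structure FTop (X G : Type) [AddCommGroup G] (p0 : Fn X) where
  O : Type 1
  Op : O → Fn X → Prop
  In : O → G → Fn X → Prop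
  Dn : G → Fn X → Prop
  op_mono : ∀ {U p q}, Op U p → q ≤ p → Op U q
  in_mono : ∀ {U x p q}, In U x p → q ≤ p → In U x q
  dn_mono : ∀ {x p q}, Dn x p → q ≤ p → Dn x q
  op_le : ∀ {U p}, Op U p → p ≤ p0
  in_reg : ∀ {U x p}, (∀ q ≤ p, ∃ r ≤ q, In U x r) → In U x p
  t1 : ∀ x ≠ 0, ∀ q ≤ p0, ∃ r ≤ q, ∃ U, Op U r ∧ In U 0 r ∧ ∀ s ≤ r, ¬ In U x s
  sub : ∀ {U x y q}, Op U q → In U (x - y) q → ∃ r ≤ q, ∃ V W, Op V r ∧ Op W r ∧ In V x r ∧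
    In W y r ∧ ∀ x' y', ∀ s ≤ r, In V x' s → In W y' s → In U (x' - y') s
  inter : ∀ {U V q}, Op U q → Op V q → ∃ r ≤ q, ∃ W, Op W r ∧
    ∀ x, ∀ s ≤ r, In W x s ↔ In U x s ∧ In V x s
  st : ∀ {U x q}, Op U q → In U x q → ∃ r ≤ q, ∃ d, Dn d r ∧ In U d r
  win : ∀ {d : ℕ → G} {q}, q ≤ p0 → (∀ n, Dn (d n) q) → ∃ r ≤ q, ∃ x, ∃ φ : ℕ → ℕ,
    StrictMono φ ∧ ∀ V, ∀ s ≤ r, Op V s → In V x s → ∃ N, ∀ n ≥ N, ∃ t ≤ s, In V (d (φ n)) t

namespace FTop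

variable {X G : Type} [AddCommGroup G] {p0 : Fn X} (T : FTop X G p0)

def Nb (U : T.O) (p : Fn X) : Prop := T.Op U p ∧ T.In U 0 p

def Out (U : T.O) (x : G) (p : Fn X) : Prop := ∀ q ≤ p, ¬ T.In U x q

def Half (W U : T.O) (p : Fn X) : Prop :=
  ∀ x y, ∀ s ≤ p, T.In W x s → T.In W y s → T.In U (x - y) s

def ConvZ (e : ℕ → G) (p : Fn X) : Prop :=
  ∀ W, ∀ s ≤ p, T.Nb W s → ∃ t ≤ s, ∃ N, ∀ n ≥ N, T.In W (e n) t

variable {T}

theorem Nb.mono {U : T.O} {p q : Fn X} (h : T.Nb U p) (hq : q ≤ p) : T.Nb U q :=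
  ⟨T.op_mono h.1 hq, T.in_mono h.2 hq⟩

theorem Out.mono {U : T.O} {x : G} {p q : Fn X} (h : T.Out U x p) (hq : q ≤ p) : T.Out U x q :=
  fun r hr => h r (hr.trans hq)

theorem Half.mono {W U : T.O} {p q : Fn X} (h : T.Half W U p) (hq : q ≤ p) : T.Half W U q :=
  fun x y s hs => h x y s (hs.trans hq)

theorem ConvZ.mono {e : ℕ → G} {p q : Fn X} (h : T.ConvZ e p) (hq : q ≤ p) : T.ConvZ e q :=
  fun W s hs => h W s (hs.trans hq)

theorem in_of_eq {U : T.O} {x y : G} {p : Fn X} (h : T.In U x p) (e : x = y) : T.In U y p :=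
  e ▸ h

theorem decide (U : T.O) (x : G) (p : Fn X) : ∃ q ≤ p, T.In U x q ∨ T.Out U x q := by
  by_cases h : ∃ q ≤ p, T.In U x q
  · obtain ⟨q, h1, h2⟩ := h
    exact ⟨q, h1, Or.inl h2⟩
  · exact ⟨p, le_rfl, Or.inr fun q hq h' => h ⟨q, hq, h'⟩⟩

theorem Nb.inter {U V : T.O} {q : Fn X} (h : T.Nb U q) (h' : T.Nb V q) : ∃ r ≤ q, ∃ W,
    T.Nb W r ∧ ∀ x, ∀ s ≤ r, T.In W x s → T.In U x s ∧ T.In V x s := by
  obtain ⟨r, r1, W, w1, w2⟩ := T.inter h.1 h'.1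
  exact ⟨r, r1, W, ⟨w1, (w2 0 r le_rfl).2 ⟨T.in_mono h.2 r1, T.in_mono h'.2 r1⟩⟩,
    fun x s hs => (w2 x s hs).1⟩

theorem Nb.half {U : T.O} {q : Fn X} (h : T.Nb U q) :
    ∃ r ≤ q, ∃ W, T.Nb W r ∧ T.Half W U r := by
  obtain ⟨r, r1, V, W, h1, h2, h3, h4, h5⟩ := T.sub (x := 0) (y := 0) h.1 (by simpa using h.2)
  obtain ⟨s, s1, Z, z1, z2⟩ := Nb.inter (T := T) ⟨h1, h3⟩ ⟨h2, h4⟩
  exact ⟨s, s1.trans r1, Z, z1, fun x y t ht hx hy =>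
    h5 x y t (ht.trans s1) (z2 x t ht hx).1 (z2 y t ht hy).2⟩

theorem Nb.translate {W : T.O} {q : Fn X} (h : T.Nb W q) (x : G) : ∃ r ≤ q, ∃ V, T.Op V r ∧
    T.In V x r ∧ ∀ y, ∀ s ≤ r, T.In V y s → T.In W (y - x) s := by
  obtain ⟨r, r1, V, V', h1, h2, h3, h4, h5⟩ := T.sub (x := x) (y := x) h.1 (by simpa using h.2)
  exact ⟨r, r1, V, h1, h3, fun y s hs hy => h5 y x s hs hy (T.in_mono h4 hs)⟩

theorem recentre {U : T.O} {x : G} {q : Fn X} (h : T.Op U q) (hx : T.In U x q) : ∃ r ≤ q, ∃ W,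
    T.Nb W r ∧ ∀ y, ∀ s ≤ r, T.In W y s → T.In U (x + y) s := by
  obtain ⟨r, r1, V, V', h1, h2, h3, h4, h5⟩ := T.sub (x := 0) (y := -x) h (by simpa using hx)
  exact ⟨r, r1, V, ⟨h1, h3⟩, fun y s hs hy =>
    in_of_eq (h5 y (-x) s hs hy (T.in_mono h4 hs)) (by abel)⟩

theorem Nb.smul (k : ℕ) : ∀ {U : T.O} {q : Fn X}, T.Nb U q → ∃ r ≤ q, ∃ W, T.Nb W r ∧
    ∀ x, ∀ s ≤ r, T.In W x s → T.In U (k • x) s := by
  induction k with
  | zero =>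
    intro U q h
    exact ⟨q, le_rfl, U, h, fun x s hs _ => by simpa using T.in_mono h.2 hs⟩
  | succ k ih =>
    intro U q h
    obtain ⟨r1, a1, W1, b1, c1⟩ := h.half
    obtain ⟨r2, a2, W2, b2, c2⟩ := b1.half
    obtain ⟨r3, a3, W3, b3, c3⟩ := ih (b1.mono a2)
    obtain ⟨r4, a4, W4, b4, c4⟩ := (b2.mono a3).inter b3
    refine ⟨r4, a4.trans (a3.trans (a2.trans a1)), W4, b4, fun x s hs hx => ?_⟩
    have s3 := hs.trans a4
    have s2 := s3.trans a3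
    refine in_of_eq (c1 (k • x) (0 - x) s (s2.trans a2) (c3 x s s3 (c4 x s hs hx).2)
      (c2 0 x s s2 (T.in_mono b2.2 s2) (c4 x s hs hx).1)) ?_
    rw [succ_nsmul]
    abel

theorem Nb.chain {U : T.O} {q : Fn X} (h : T.Nb U q) : ∃ r ≤ q, ∃ W : ℕ → T.O, W 0 = U ∧
    ∀ n, T.Nb (W n) r ∧ T.Half (W (n + 1)) (W n) r := by
  obtain ⟨f, f0, hf⟩ := exists_seq (U, q) (fun _ a => T.Nb a.1 a.2)
    (fun _ a b => b.2 ≤ a.2 ∧ T.Half b.1 a.1 b.2) h (by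
      intro _ a ha
      obtain ⟨r, r1, W, w1, w2⟩ := ha.half
      exact ⟨(W, r), w1, r1, w2⟩)
  obtain ⟨r, hr, -⟩ := Fn.exists_lb (s := fun n => (f n).2)
    (antitone_nat_of_succ_le fun n => (hf n).2.1)
  refine ⟨r, by simpa [f0] using hr 0, fun n => (f n).1, by simp [f0], fun n => ?_⟩
  exact ⟨(hf n).1.mono (hr n), (hf n).2.2.mono (hr (n + 1))⟩

theorem conv {d : ℕ → G} {q : Fn X} (hq : q ≤ p0) (h : ∀ n, T.Dn (d n) q) :
    ∃ r ≤ q, ∃ x, ∃ φ : ℕ → ℕ, StrictMono φ ∧ T.ConvZ (fun n => d (φ n) - x) r := by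
  obtain ⟨r, r1, x, φ, h1, h2⟩ := T.win hq h
  refine ⟨r, r1, x, φ, h1, fun W s hs hW => ?_⟩
  obtain ⟨t, t1, V, v1, v2, v3⟩ := hW.translate x
  obtain ⟨u, u1, u2⟩ := Fn.dense_all (fun n q => T.In V (d (φ n)) q ∨ T.Out V (d (φ n)) q)
    (fun n p q h hq => h.imp (fun h => T.in_mono h hq) fun h => h.mono hq) t
    fun n q _ => decide V _ q
  obtain ⟨N, hN⟩ := h2 V u (u1.trans (t1.trans hs)) (T.op_mono v1 u1) (T.in_mono v2 u1)
  refine ⟨u, u1.trans t1, N, fun n hn => v3 _ u u1 ((u2 n).resolve_right fun h => ?_)⟩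
  obtain ⟨v, w1, w2⟩ := hN n hn
  exact h v w1 w2

theorem ConvZ.smul {e : ℕ → G} {p : Fn X} (h : T.ConvZ e p) (k : ℕ) :
    T.ConvZ (fun n => k • e n) p := by
  intro W s hs hW
  obtain ⟨r, r1, V, v1, v2⟩ := hW.smul k
  obtain ⟨t, t1, N, hN⟩ := h V r (r1.trans hs) v1
  exact ⟨t, t1.trans r1, N, fun n hn => v2 _ t t1 (hN n hn)⟩

theorem cover_dense {W : T.O} {q : Fn X} (h : T.Nb W q) : ∃ r ≤ q, ∃ C : Set G, C.Countable ∧
    ∀ x, ∀ s ≤ r, ∃ t ≤ s, ∃ c ∈ C, T.In W (x - c) t := by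
  by_contra hc
  push Not at hc
  obtain ⟨q1, a1, W1, b1, c1⟩ := h.half
  obtain ⟨q2, a2, W2, b2, c2⟩ := b1.half
  obtain ⟨f, -, hf⟩ := exists_seq (A := Fn X × Set G × G × G) (q2, ∅, 0, 0)
    (fun _ a => a.1 ≤ q2 ∧ a.2.1.Countable)
    (fun _ a b => b.1 ≤ a.1 ∧ b.2.1 = insert b.2.2.1 a.2.1 ∧
      (∀ c ∈ a.2.1, T.Out W (b.2.2.1 - c) b.1) ∧ T.Dn b.2.2.2 b.1 ∧
        T.In W2 (b.2.2.2 - b.2.2.1) b.1) ⟨le_rfl, countable_empty⟩ (by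
      rintro _ ⟨r, C, z⟩ ⟨ha, hC⟩
      obtain ⟨x, s, s1, s2⟩ := hc r (ha.trans (a2.trans a1)) C hC
      obtain ⟨t, t1, V, v1, v2, v3⟩ := (b2.mono (s1.trans ha)).translate x
      obtain ⟨u, u1, d, d1, d2⟩ := T.st v1 v2
      exact ⟨(u, insert x C, x, d), ⟨u1.trans (t1.trans (s1.trans ha)), hC.insert x⟩,
        u1.trans (t1.trans s1), rfl, fun c hc v hv => s2 v (hv.trans (u1.trans t1)) c hc, d1,
        v3 d u u1 d2⟩)
  obtain ⟨t, ht, -⟩ := Fn.exists_lb (s := fun n => (f n).1)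
    (antitone_nat_of_succ_le fun n => (hf n).2.1)
  have t2 : t ≤ q2 := (ht 0).trans (hf 0).1.1
  have hm : Monotone fun n => (f n).2.1 := monotone_nat_of_le_succ fun n => by
    rw [(hf n).2.2.1]
    exact subset_insert _ _
  obtain ⟨r, r1, x, φ, h1, h2⟩ := conv (T := T) (d := fun n => (f (n + 1)).2.2.2)
    (t2.trans (T.op_le b2.1)) fun n => T.dn_mono (hf n).2.2.2.2.1 (ht (n + 1))
  obtain ⟨u, u1, N, hN⟩ := h2 W2 r le_rfl (b2.mono (r1.trans t2))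
  have ut := u1.trans r1
  have u2 := ut.trans t2
  have hx : (f (φ N + 1)).2.2.1 ∈ (f (φ (N + 1))).2.1 := by
    refine hm (show φ N + 1 ≤ φ (N + 1) from h1 (Nat.lt_succ_self N)) ?_
    simp only [(hf (φ N)).2.2.1]
    exact mem_insert _ _
  refine (hf (φ (N + 1))).2.2.2.1 _ hx u (ut.trans (ht _)) (in_of_eq (c1 _ _ u (u2.trans a2)
    (c2 _ _ u u2 (hN (N + 1) (by omega)) (hN N le_rfl))
    (c2 _ _ u u2 (T.in_mono (hf (φ (N + 1))).2.2.2.2.2 (ut.trans (ht _)))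
      (T.in_mono (hf (φ N)).2.2.2.2.2 (ut.trans (ht _))))) (by beta_reduce; abel))

theorem cover [Nonempty X] {W : T.O} {p : Fn X} (h : T.Nb W p) : ∃ C : Set G, #C ≤ 𝔠 ∧
    ∀ x, ∀ q ≤ p, ∃ r ≤ q, ∃ c ∈ C, T.In W (x - c) r := by
  obtain ⟨A, a1, a2, a3⟩ := Fn.exists_predense fun r : Fn X => ∃ C : Set G, C.Countable ∧
    ∀ x, ∀ s ≤ r, ∃ t ≤ s, ∃ c ∈ C, T.In W (x - c) t
  choose C c1 c2 using fun r : A => a2 r.1 r.2
  refine ⟨⋃ r, C r, mk_iUnion_le_of aleph0_le_continuum _ a1 fun r =>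
    (le_aleph0_iff_set_countable.2 (c1 r)).trans aleph0_le_continuum, fun x q hq => ?_⟩
  obtain ⟨r, r1, hr⟩ := cover_dense (h.mono hq)
  obtain ⟨r', h1, s, s1, s2⟩ := a3 r hr
  obtain ⟨t, t1, c, h2, h3⟩ := c2 ⟨r', h1⟩ x s s2
  exact ⟨t, t1.trans (s1.trans r1), c, mem_iUnion.2 ⟨_, h2⟩, h3⟩

variable (T) in
def Appr (k : ℕ) (g : G) (q : Fn X) : Prop :=
  ∃ d : ℕ → G, (∀ n, T.Dn (d n) q) ∧ T.ConvZ (fun n => k • d n - g) q

theorem somewhere_dense [Nontrivial G] {F : Set G} (hF : ∀ x : G, ∃ k : ℕ, (k + 1) • x ∈ F) :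
    ∃ k : ℕ, ∃ p U u, T.Op U p ∧ T.In U u p ∧ ∀ V y, ∀ q ≤ p, T.Op V q → T.In V y q →
      T.In U y q → ∃ r ≤ q, ∃ x, T.In V x r ∧ (k + 1) • x ∈ F ∧ T.Appr (k + 1) ((k + 1) • x) r := by
  by_contra hc
  push Not at hc
  obtain ⟨z, hz⟩ := exists_ne (0 : G)
  obtain ⟨q0, -, U0, u1, u2, -⟩ := T.t1 z hz p0 le_rfl
  obtain ⟨f, -, hf⟩ := exists_seq (A := Fn X × T.O × G) (q0, U0, 0)
    (fun _ a => T.Op a.2.1 a.1 ∧ T.In a.2.1 a.2.2 a.1)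
    (fun n a b => b.1 ≤ a.1 ∧ T.Dn b.2.2 b.1 ∧
      (∀ z, ∀ s ≤ b.1, T.In b.2.1 z s → T.In a.2.1 z s) ∧ ∃ V W, T.Nb W b.1 ∧
        (∀ r ≤ b.1, ∀ x, T.In V x r → (n + 1) • x ∈ F → ¬ T.Appr (n + 1) ((n + 1) • x) r) ∧
        ∀ z x, ∀ s ≤ b.1, T.In b.2.1 z s → T.In W (z - x) s → T.In V x s) ⟨u1, u2⟩ (by
      rintro n ⟨q, U, y⟩ ⟨h1, h2⟩
      obtain ⟨V, y', q', a0, v1, v2, v3, v4⟩ := hc n q U y h1 h2
      obtain ⟨q1, a1, Z, z1, z2⟩ := T.inter (T.op_mono h1 a0) v1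
      obtain ⟨q2, a2, W, w1, w2⟩ := recentre z1
        ((z2 y' q1 le_rfl).2 ⟨T.in_mono v3 a1, T.in_mono v2 a1⟩)
      obtain ⟨q3, a3, W', b1, b2⟩ := w1.half
      obtain ⟨q4, a4, U', c1, c2, c3⟩ := b1.translate y'
      obtain ⟨q5, a5, d, d1, d2⟩ := T.st c1 c2
      have e3 := a5.trans a4
      have e1 := e3.trans (a3.trans a2)
      have key : ∀ z x, ∀ s ≤ q5, T.In U' z s → T.In W' (z - x) s → T.In Z x s := by
        intro z x s hs h3 h4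
        refine in_of_eq (w2 _ s (hs.trans (e3.trans a3))
          (b2 _ _ s (hs.trans e3) (c3 z s (hs.trans a5) h3) h4)) (by abel)
      refine ⟨(q5, U', d), ⟨T.op_mono c1 a5, d2⟩, e1.trans (a1.trans a0), d1, ?_, V, W',
        b1.mono e3, fun r hr => v4 r (hr.trans (e1.trans a1)), ?_⟩
      · intro z s hs h3
        exact ((z2 z s (hs.trans e1)).1 (key z z s hs h3
          (by simpa using T.in_mono b1.2 (hs.trans e3)))).1
      · intro z x s hs h3 h4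
        exact ((z2 x s (hs.trans e1)).1 (key z x s hs h3 h4)).2)
  obtain ⟨t, ht, -⟩ := Fn.exists_lb (s := fun n => (f n).1)
    (antitone_nat_of_succ_le fun n => (hf n).2.1)
  have hn : ∀ i j, i ≤ j → ∀ z, ∀ s ≤ t, T.In (f j).2.1 z s → T.In (f i).2.1 z s := by
    intro i j hij
    induction j, hij using Nat.le_induction with
    | base => exact fun _ _ _ h => h
    | succ j _ ih => exact fun z s hs h => ih z s hs ((hf j).2.2.2.1 z s (hs.trans (ht _)) h)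
  obtain ⟨r, r1, x, φ, h1, h2⟩ := conv (T := T) (d := fun n => (f (n + 1)).2.2)
    ((ht 0).trans (T.op_le (hf 0).1.1)) fun n => T.dn_mono (hf n).2.2.1 (ht (n + 1))
  obtain ⟨k, hk⟩ := hF x
  obtain ⟨V, W, w1, w2, w3⟩ := (hf k).2.2.2.2
  obtain ⟨u, u1, N, hN⟩ := h2 W r le_rfl (w1.mono (r1.trans (ht _)))
  have ut := u1.trans r1
  have hm : k + 1 ≤ φ (max N k) + 1 :=
    Nat.succ_le_succ ((le_max_right N k).trans (h1.id_le _))
  refine w2 u (ut.trans (ht _)) x (w3 _ x u (ut.trans (ht _))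
    (hn _ _ hm _ u ut (T.in_mono (hf _).1.2 (ut.trans (ht _)))) (hN _ (le_max_left N k))) hk
    ⟨fun n => (f (φ n + 1)).2.2, fun n => T.dn_mono (hf _).2.2.1 (ut.trans (ht _)), ?_⟩
  simpa only [smul_sub] using (h2.smul (k + 1)).mono u1

theorem approx [Nonempty X] [Nontrivial G] {F : Set G} (hc : #F ≤ 𝔠)
    (hF : ∀ x : G, ∃ k : ℕ, (k + 1) • x ∈ F) :
    ∃ k : ℕ, ∃ p O u, ∃ E : Set G, T.Nb O p ∧ #E ≤ 𝔠 ∧ ∀ y, ∀ q ≤ p, T.In O y q → ∀ W,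
      T.Nb W q → ∃ r ≤ q, ∃ e ∈ E, T.Dn e r ∧
        T.In W ((k + 1) • e - (k + 1) • u - (k + 1) • y) r := by
  obtain ⟨k, p, U, u, h1, h2, h3⟩ := somewhere_dense (T := T) hF
  choose A a1 a2 a3 using fun g : F => Fn.exists_predense (T.Appr (k + 1) g.1)
  choose d d1 d2 using fun g : F => fun q : A g => a2 g q.1 q.2
  obtain ⟨p2, b1, O, o1, o2⟩ := recentre h1 h2
  refine ⟨k, p2, O, u, ⋃ g, ⋃ q, range (d g q), o1, ?_, fun y q hq hy W hW => ?_⟩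
  · refine mk_iUnion_le_of aleph0_le_continuum _ hc fun g =>
      mk_iUnion_le_of aleph0_le_continuum _ (a1 g) fun q => mk_range_le.trans ?_
    simpa using aleph0_le_continuum
  obtain ⟨q1, c1, W1, w1, v1⟩ := hW.half
  obtain ⟨q2, c2, W2, w2, v2⟩ := w1.smul (k + 1)
  obtain ⟨q3, c3, W3, w3, v3⟩ := w2.half
  obtain ⟨q4, c4, V, w4, v4, v5⟩ := w3.translate (u + y)
  have e2 := c4.trans c3
  have e1 := e2.trans c2
  have e0 := e1.trans c1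
  obtain ⟨r, r1, x, x1, x2, x3⟩ := h3 V (u + y) q4 (e0.trans (hq.trans b1)) w4 v4
    (o2 y q4 (e0.trans hq) (T.in_mono hy e0))
  obtain ⟨q', g1, s, s1, s2⟩ := a3 ⟨_, x2⟩ r x3
  have s4 := s1.trans r1
  obtain ⟨t, t1, N, hN⟩ := d2 ⟨_, x2⟩ ⟨q', g1⟩ W1 s s2 (w1.mono (s4.trans e1))
  have t4 := t1.trans s4
  refine ⟨t, t4.trans e0, _, mem_iUnion.2 ⟨_, mem_iUnion.2 ⟨_, N, rfl⟩⟩,
    T.dn_mono (d1 ⟨_, x2⟩ ⟨q', g1⟩ N) (t1.trans s2), ?_⟩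
  refine in_of_eq (v1 _ _ t (t4.trans e1) (hN N le_rfl) (v2 _ t (t4.trans e2)
    (v3 0 _ t (t4.trans c4) (T.in_mono w3.2 (t4.trans c4))
      (v5 x t t4 (T.in_mono x1 (t1.trans s1)))))) ?_
  simp only [smul_sub, smul_add, smul_zero]
  abel

theorem key [Nonempty X] {μ : Cardinal.{0}} (hμ : ℵ₀ ≤ μ) (hp : μ ^ nu ≤ μ) (hX : #X ≤ μ)
    {k : ℕ} (hG : μ < #(range fun x : G => k • x)) {L : Type} (hL : #L ≤ nu) (W W' : L → T.O)
    (p : L → Fn X) (m : L → ℕ) (h1 : ∀ l, T.Nb (W l) (p l)) (h2 : ∀ l, T.Half (W l) (W' l) (p l)) :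
    ∃ x : G, k • x ≠ 0 ∧ ∀ l, T.In (W' l) (m l • x) (p l) := by
  have hμ0 := (aleph0_pos.trans_le hμ).ne'
  have hpc : μ ^ 𝔠 ≤ μ := (power_le_power_left hμ0 c_le_nu).trans hp
  choose C c1 c2 using fun l => cover (h1 l)
  choose A a1 a2 a3 using fun (x : G) (u : Σ l, C l) =>
    Fn.exists_predense (T.In (W u.1) (m u.1 • x - u.2.1))
  choose g hg using fun y : range fun x : G => k • x => y.2
  have hcard : #((Σ l, C l) → {A : Set (Fn X) // #A ≤ 𝔠}) ≤ μ := by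
    refine mk_fun_le_of hμ hp ?_ ((mk_bounded_set_le _ _).trans ?_)
    · rw [mk_sigma]
      refine (sum_le_sum _ (fun _ => nu) fun l => (c1 l).trans c_le_nu).trans ?_
      rw [sum_const']
      exact mul_le_of_le nu_inf hL le_rfl
    · refine (power_le_power_right (max_le (Fn.mk_le hμ ?_ hX) hμ)).trans hpc
      exact (power_le_power_left hμ0 aleph0_le_continuum).trans hpc
  have hni : ¬ Function.Injective fun (y : range fun x : G => k • x) (u : Σ l, C l) =>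
      (⟨A (g y) u, a1 _ _⟩ : {A : Set (Fn X) // #A ≤ 𝔠}) := fun h =>
    absurd ((mk_le_of_injective h).trans hcard) (not_le.2 hG)
  simp only [Function.Injective, not_forall] at hni
  obtain ⟨y, y', e, hne⟩ := hni
  refine ⟨g y - g y', ?_, fun l => T.in_reg fun q hq => ?_⟩
  · rw [smul_sub, sub_ne_zero]
    intro h
    exact hne (Subtype.ext ((hg y).symm.trans (h.trans (hg y'))))
  · obtain ⟨r, r1, c, h3, h4⟩ := c2 l (m l • g y) q hq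
    obtain ⟨q', h5, s, s1, s2⟩ := a3 (g y) ⟨l, c, h3⟩ r h4
    have e' : A (g y) ⟨l, c, h3⟩ = A (g y') ⟨l, c, h3⟩ := congrArg Subtype.val (congrFun e _)
    rw [e'] at h5
    refine ⟨s, s1.trans r1, in_of_eq (h2 l _ _ s (s1.trans (r1.trans hq)) (T.in_mono h4 s1)
      (T.in_mono (a2 _ _ _ h5) s2)) ?_⟩
    simp only [smul_sub]
    abel

variable (T) in
def Chain (V : ℕ → T.O) (p : Fn X) : Prop := ∀ n, T.Nb (V n) p ∧ T.Half (V (n + 1)) (V n) p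

variable (T) in
def Ker (V : ℕ → T.O) (p : Fn X) (z : G) : Prop := ∀ n, T.In (V n) z p

theorem Chain.zero {V : ℕ → T.O} {p : Fn X} (h : T.Chain V p) : T.Ker V p 0 := fun n => (h n).1.2

theorem Chain.sub {V : ℕ → T.O} {p : Fn X} (h : T.Chain V p) {z w : G} (hz : T.Ker V p z)
    (hw : T.Ker V p w) : T.Ker V p (z - w) := fun n => (h n).2 _ _ p le_rfl (hz _) (hw _)

theorem Chain.add {V : ℕ → T.O} {p : Fn X} (h : T.Chain V p) {z w : G} (hz : T.Ker V p z)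
    (hw : T.Ker V p w) : T.Ker V p (z + w) := by
  have := h.sub hz (h.sub h.zero hw)
  simpa using this

theorem family [Nonempty X] {μ : Cardinal.{0}} (hμ : ℵ₀ ≤ μ) (hp : μ ^ nu ≤ μ) (hX : #X ≤ μ)
    {k : ℕ} (hG : μ < #(range fun x : G => k • x)) {O : ℕ → T.O} {p2 : Fn X}
    (hO : T.Chain O p2) : ∃ (p : Th → Fn X) (x : Th → G) (V : Th → ℕ → T.O),
      (∀ i, p i ≤ p2 ∧ T.Chain (V i) (p i) ∧ T.Out (V i 0) (k • x i) (p i) ∧
        T.Ker O p2 (x i)) ∧ ∀ i j, j < i → T.Ker (V j) (p j) (k • x i) := by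
  have : Nonempty (Fn X × G × (ℕ → T.O)) := ⟨(p2, 0, O)⟩
  obtain ⟨f, f1, f2⟩ := exists_rec (Θ := Th) (D := Fn X × G × (ℕ → T.O))
    (fun d => d.1 ≤ p2 ∧ T.Chain d.2.2 d.1 ∧ T.Out (d.2.2 0) (k • d.2.1) d.1 ∧ T.Ker O p2 d.2.1)
    (fun d' d => T.Ker d'.2.2 d'.1 (k • d.2.1)) (by
      intro i f hf
      obtain ⟨x, x1, x2⟩ := key (T := T) hμ hp hX hG (L := Option (Iio i) × ℕ)
        (mk_prod_le_of nu_inf (mk_option_le_of nu_inf (small_Iio i)) (by simpa using nu_inf))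
        (fun l => l.1.elim (O (l.2 + 1)) fun j => (f j).2.2 (l.2 + 1))
        (fun l => l.1.elim (O l.2) fun j => (f j).2.2 l.2)
        (fun l => l.1.elim p2 fun j => (f j).1) (fun l => l.1.elim 1 fun _ => k)
        (by
          rintro ⟨_ | j, n⟩
          exacts [(hO _).1, ((hf j).2.1 _).1])
        (by
          rintro ⟨_ | j, n⟩
          exacts [(hO _).2, ((hf j).2.1 _).2])
      obtain ⟨r, r1, U, u1, u2, u3⟩ := T.t1 _ x1 p2 (T.op_le (hO 0).1.1)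
      obtain ⟨s, s1, V, v1, v2⟩ := Nb.chain (T := T) ⟨u1, u2⟩
      refine ⟨(s, x, V), ⟨s1.trans r1, v2, ?_, fun n => by simpa using x2 (none, n)⟩,
        fun j n => x2 (some j, n)⟩
      intro t ht
      simp only [v1]
      exact u3 t (ht.trans s1))
  exact ⟨fun i => (f i).1, fun i => (f i).2.1, fun i => (f i).2.2, f1, f2⟩

end FTop

end Pool.Agent.Lib.MP_fe6d4f_gt
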