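import Mathlib
import Pool.Agent.Lib.MP_053343_lc.Defs

/-!
Definitions for MP_fe6d4f_gt: abelian groups, group topologies, pseudocompactness and
stationary winning strategies in the sense of a transitive model `M`.
-/

namespace Pool.Agent.Lib.MP_fe6d4f_gt

open Pool.Agent.Lib.MP_053343_lc

/-- The axiom of choice in `M`: every set in `M` has a choice function in `M`. -/
def AC (M : ZFSet.{0}) : Prop :=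
  ∀ a ∈ M, ∃ f ∈ M, ∀ x ∈ a, x ≠ ∅ → ∃ y ∈ x, ∀ z, ZFSet.pair x z ∈ f ↔ z = y

/-- The sequence `U` is an element of `M`. -/
def SeqIn (M : ZFSet.{0}) (U : ℕ → ZFSet.{0}) : Prop :=
  ∃ g ∈ M, ∀ z, z ∈ g ↔ ∃ n, z = ZFSet.pair (nat n) (U n)

/-- `(G, add, o)` is an abelian group with zero `o`; `G` and the graph of `add` are in `M`. -/
structure AbGrp (M G : ZFSet.{0}) (add : ZFSet.{0} → ZFSet.{0} → ZFSet.{0}) (o : ZFSet.{0}) :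
    Prop where
  mem : G ∈ M
  graph : ∃ g ∈ M, ∀ z, z ∈ g ↔ ∃ x ∈ G, ∃ y ∈ G, z = ZFSet.pair (ZFSet.pair x y) (add x y)
  closed : ∀ x ∈ G, ∀ y ∈ G, add x y ∈ G
  assoc : ∀ x ∈ G, ∀ y ∈ G, ∀ z ∈ G, add (add x y) z = add x (add y z)
  comm : ∀ x ∈ G, ∀ y ∈ G, add x y = add y x
  zero_mem : o ∈ G
  zero_add : ∀ x ∈ G, add o x = x
  neg : ∀ x ∈ G, ∃ y ∈ G, add x y = o

/-- `τ ∈ M` is a Hausdorff group topology on `(G, add, o)` in the sense of `M`. -/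
structure GroupTop (M G : ZFSet.{0}) (add : ZFSet.{0} → ZFSet.{0} → ZFSet.{0})
    (o τ : ZFSet.{0}) : Prop where
  mem : τ ∈ M
  top : IsTop M G τ
  t2 : ∀ x ∈ G, ∀ y ∈ G, x ≠ y → ∃ U ∈ τ, ∃ V ∈ τ, x ∈ U ∧ y ∈ V ∧ ∀ z ∈ U, z ∉ V
  add_cont : ∀ x ∈ G, ∀ y ∈ G, ∀ U ∈ τ, add x y ∈ U → ∃ V ∈ τ, ∃ W ∈ τ, x ∈ V ∧ y ∈ W ∧
    ∀ x' ∈ V, ∀ y' ∈ W, add x' y' ∈ U
  neg_cont : ∀ x ∈ G, ∀ U ∈ τ, ∀ y ∈ U, add x y = o → ∃ V ∈ τ, x ∈ V ∧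
    ∀ x' ∈ V, ∀ y' ∈ G, add x' y' = o → y' ∈ U

/-- Every continuous real function on `(X, τ)` lying in `M` is bounded. -/
def Pseudocompact (M X τ : ZFSet.{0}) : Prop :=
  ∀ F : ZFSet.{0} → ℝ, IsCont M X τ F → ∃ n : ℕ, ∀ x ∈ X, |F x| ≤ n

/-- In `M`, Player P has a stationary winning strategy in the game `Ssp (X, τ)`. -/
def WinsSsp (M X τ : ZFSet.{0}) : Prop :=
  ∃ s : ZFSet.{0} → ZFSet.{0},
    (∃ g ∈ M, ∀ z, z ∈ g ↔ ∃ U ∈ τ, U ≠ ∅ ∧ z = ZFSet.pair U (s U)) ∧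
    (∀ U ∈ τ, U ≠ ∅ → s U ∈ U) ∧
    ∀ U : ℕ → ZFSet.{0}, SeqIn M U → (∀ n, U n ∈ τ ∧ U n ≠ ∅) →
      ∃ x ∈ X, ∃ φ : ℕ → ℕ, StrictMono φ ∧ SeqIn M (fun n => nat (φ n)) ∧
        ∀ V ∈ τ, x ∈ V → ∃ N, ∀ n ≥ N, s (U (φ n)) ∈ V

end Pool.Agent.Lib.MP_fe6d4f_gt
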