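import Mathlib
import Pool.Agent.Lib.MP_fe6d4f_gt.Comb

/-!
No condition forces a group topology with a winning stationary strategy on a group of small
free rank all of whose multiples are large.
-/

namespace Pool.Agent.Lib.MP_fe6d4f_gt

open Cardinal Set Classical

def Rooted {X K : Type} (σ : K → Option X) (u : Fn K) (s : Fn X) : Prop :=
  ∀ k x v, σ k = some x → u.1 k = some v → s.1 x = some v

theorem Rooted.mono {X K : Type} {σ : K → Option X} {u : Fn K} {s t : Fn X} (h : Rooted σ u s)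
    (ht : t ≤ s) : Rooted σ u t := fun k x v h1 h2 => ht x v (h k x v h1 h2)

theorem no_ftop {X G : Type} [AddCommGroup G] {p0 : Fn X} {μ : Cardinal.{0}} (hμ : ℵ₀ ≤ μ)
    (hp : μ ^ nu ≤ μ) (hX : #X ≤ μ) (hX' : 𝔠 ≤ #X) {F : Set G} (hc : #F ≤ 𝔠)
    (hF : ∀ x : G, ∃ k : ℕ, (k + 1) • x ∈ F)
    (hG : ∀ k : ℕ, μ < #(range fun x : G => (k + 1) • x)) (T : FTop X G p0) : False := by
  have : Nonempty X := by
    rw [← mk_ne_zero_iff]
    exact (continuum_pos.trans_le hX').ne'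
  have : Nontrivial G := by
    rw [← one_lt_iff_nontrivial]
    exact (one_lt_aleph0.trans_le hμ).trans ((hG 0).trans_le mk_range_le)
  obtain ⟨k0, p1, O0, u0, E, o1, hE, happ⟩ := FTop.approx (T := T) hc hF
  have hGk := hG k0
  generalize k0 + 1 = k at happ hGk
  obtain ⟨p2, e2, O, rfl, hO⟩ := o1.chain
  obtain ⟨p, x, V, hg, hr⟩ := FTop.family (T := T) hμ hp hX hGk hO
  obtain ⟨ι⟩ : Nonempty (ℝ ↪ X) := by
    rw [← Cardinal.le_def, mk_real]
    exact hX'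
  have hα : ∀ i, ∃ α : ℝ ↪ X, (p i).dom ⊆ range α ∧ ∀ (z : E × E) q,
      T.Out (V i 3) (k • z.1.1 - k • z.2.1) q → ∃ q', T.Out (V i 3) (k • z.1.1 - k • z.2.1) q' ∧
        q'.dom ⊆ range α ∧ q' ≤ q.res (range α) := by
    intro i
    obtain ⟨a, a1, a2, a3⟩ := Fn.exists_supp (X := X) (Z := E × E)
      (mk_prod_le_of aleph0_le_continuum hE hE)
      (fun z q => T.Out (V i 3) (k • z.1.1 - k • z.2.1) q) ((p i).dom ∪ range ι)
      ((mk_union_le _ _).trans (add_le_of_le aleph0_le_continuum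
        ((Fn.mk_dom _).trans aleph0_le_continuum) (mk_range_le.trans mk_real.le)))
    have h1 : #ℝ = #a := by
      refine le_antisymm ?_ (a2.trans mk_real.ge)
      rw [← mk_range_eq ι ι.injective]
      exact mk_le_mk_of_subset (subset_union_right.trans a1)
    obtain ⟨e⟩ := Cardinal.eq.1 h1
    have h2 : range (e.toEmbedding.trans (Function.Embedding.subtype (· ∈ a))) = a := by
      ext y
      exact ⟨fun ⟨r, h⟩ => h ▸ (e r).2, fun h => ⟨e.symm ⟨y, h⟩, by simp⟩⟩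
    refine ⟨e.toEmbedding.trans (Function.Embedding.subtype (· ∈ a)), ?_, ?_⟩
    · rw [h2]
      exact subset_union_left.trans a1
    · rw [h2]
      exact a3
  choose α α1 α2 using hα
  have hFn : #(Fn ℝ) ≤ 𝔠 := Fn.mk_le aleph0_le_continuum (by simp) mk_real.le
  obtain ⟨σ, ⟨τ, w0⟩, hrich⟩ := exists_rich (K := ℝ) (T := Set (Fn ℝ × E × E) × Fn ℝ) mk_real.le
    (mk_prod_le_of nu_inf (by
      rw [mk_set]
      exact power_le_power_left two_ne_zero (mk_prod_le_of aleph0_le_continuum hFn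
        (mk_prod_le_of aleph0_le_continuum hE hE))) (hFn.trans c_le_nu))
    (fun i => α i) fun i => ({z | ∀ q, Fn.pull (α i) q ≤ z.1 →
      T.Out (V i 3) (k • z.2.1.1 - k • z.2.2.1) q}, Fn.pull (α i) (p i))
  let Gd : Th → Prop := fun i => (∀ z, z ∈ τ ↔ ∀ q, Fn.pull (α i) q ≤ z.1 →
      T.Out (V i 3) (k • z.2.1.1 - k • z.2.2.1) q) ∧ Fn.pull (α i) (p i) = w0 ∧
    ∀ r y, σ r = some y → α i r = y
  have copy : ∀ u s, Rooted σ u s → ∀ i0, ∃ i, i0 < i ∧ Gd i ∧ ∃ q ≤ s, Fn.pull (α i) q ≤ u := by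
    intro u s hs i0
    obtain ⟨i, h1, h2, h3⟩ := hrich s.dom s.2 i0
    obtain ⟨h4, h5⟩ := Prod.mk.inj h2
    refine ⟨i, h1, ⟨fun z => by rw [← h4]; rfl, h5, fun r => (h3 r).1⟩,
      Fn.exists_push (α i) u s fun r v w hv hw => ?_⟩
    cases h : σ r with
    | none => exact ((h3 r).2 h (by simp [Fn.dom, hw])).elim
    | some y =>
      have := hs r y v h hv
      rw [← (h3 r).1 y h, hw] at this
      exact (Option.some.inj this).symm
  have below : ∀ i, Gd i → ∀ q, Fn.pull (α i) q ≤ w0 → q ≤ p i := fun i hi q hq =>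
    Fn.le_of_pull (α1 i) (by rwa [hi.2.1])
  obtain ⟨j0, -⟩ := bdd (ι := Empty) (by simp) fun e => e.elim
  have subA : ∀ s ≤ p2, ∀ S : Set (Fn ℝ × E), S.Finite → (∀ a ∈ S, a.1 ≤ w0 ∧ Rooted σ a.1 s) →
      ∃ q ≤ s, ∃ y, T.Ker O p2 y ∧ ∃ W, T.Nb W q ∧ ∃ i0, ∀ a ∈ S, ∃ i ≤ i0, Gd i ∧
        Fn.pull (α i) q ≤ a.1 ∧ (∀ w, T.Ker (V i) (p i) w →
          T.Out (V i 2) (k • u0 + k • y - k • a.2.1 + w) q) ∧
        ∀ z, ∀ r ≤ q, T.In W z r → T.In (V i 3) z r := by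
    intro s hs S hS
    induction S, hS using Set.Finite.induction_on with
    | empty => exact fun _ => ⟨s, le_rfl, 0, FTop.Chain.zero hO, O 0, (hO 0).1.mono hs, j0,
        fun _ h => h.elim⟩
    | @insert a S _ _ ih =>
      intro h
      obtain ⟨q, q1, y, y1, W, w1, i0, hi⟩ := ih fun b hb => h b (mem_insert_of_mem _ hb)
      obtain ⟨h1, h2⟩ := h a (mem_insert _ _)
      obtain ⟨i, i1, i2, r, r1, r2⟩ := copy a.1 q (h2.mono q1) i0
      have rp := below i i2 r (r2.trans h1)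
      have hV := (hg i).2.1
      obtain ⟨t, t1, y', y2, y3, y4⟩ : ∃ t ≤ r, ∃ y', T.Ker O p2 y' ∧ (y' = y ∨ y' = y + x i) ∧
          T.Out (V i 1) (k • u0 + k • y' - k • a.2.1) t := by
        obtain ⟨t, t1, h3 | h3⟩ := FTop.decide (V i 1) (k • u0 + k • y - k • a.2.1) r
        · refine ⟨t, t1, y + x i, FTop.Chain.add hO y1 (hg i).2.2.2, Or.inr rfl, fun v hv h4 => ?_⟩
          have vp := hv.trans (t1.trans rp)
          refine (hg i).2.2.1 v vp (FTop.in_of_eq ((hV 0).2 _ _ v vp h4 (T.in_mono h3 hv)) ?_)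
          rw [smul_add]
          abel
        · exact ⟨t, t1, y, y1, Or.inl rfl, h3⟩
      obtain ⟨v, v1, W', b1, b2⟩ := (w1.mono (t1.trans r1)).inter ((hV 3).1.mono (t1.trans rp))
      have vr := v1.trans t1
      refine ⟨v, vr.trans (r1.trans q1), y', y2, W', b1, i, ?_⟩
      rintro b (rfl | hb)
      · refine ⟨i, le_rfl, i2, (Fn.pull_mono _ vr).trans r2, fun w hw z hz h4 => ?_,
          fun z r hr h => (b2 z r hr h).2⟩
        have zp := hz.trans (vr.trans rp)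
        exact y4 z (hz.trans v1) (FTop.in_of_eq ((hV 1).2 _ _ z zp h4 (T.in_mono (hw 2) zp))
          (by abel))
      · obtain ⟨j, j1, j2, j3, j4, j5⟩ := hi b hb
        refine ⟨j, j1.trans i1.le, j2, (Fn.pull_mono _ (vr.trans r1)).trans j3, fun w hw => ?_,
          fun z r' hr' h => j5 z r' (hr'.trans (vr.trans r1)) (b2 z r' hr' h).1⟩
        rcases y3 with rfl | rfl
        · exact (j4 w hw).mono (vr.trans r1)
        · have := (j4 _ (FTop.Chain.add (hg j).2.1 (hr i j (j1.trans_lt i1)) hw)).mono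
            (vr.trans r1)
          intro z hz h4
          refine this z hz (FTop.in_of_eq h4 ?_)
          rw [smul_add]
          abel
  have step : ∀ s ≤ p2, ∀ S : Set (Fn ℝ × E), S.Finite → (∀ a ∈ S, a.1 ≤ w0 ∧ Rooted σ a.1 s) →
      ∃ s' ≤ s, ∃ e : E, T.Dn e.1 s' ∧ ∀ a : S, ∃ u' ≤ a.1.1, Rooted σ u' s' ∧
        (u', e, a.1.2) ∈ τ := by
    intro s hs S hS h
    obtain ⟨q, q1, y, y1, W, w1, i0, hi⟩ := subA s hs S hS h
    obtain ⟨r, r1, e, e1, e3, e4⟩ := happ y q (q1.trans (hs.trans e2))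
      (T.in_mono (y1 0) (q1.trans hs)) W w1
    have := hS.to_subtype
    obtain ⟨s', s1, s2⟩ := Fn.dense_all (fun (a : S) s' => ∃ u' ≤ a.1.1, Rooted σ u' s' ∧
        (u', (⟨e, e1⟩ : E), a.1.2) ∈ τ)
      (fun a p q ⟨u', h1, h2, h3⟩ hq => ⟨u', h1, h2.mono hq, h3⟩) r (by
        intro a t ht
        obtain ⟨i, -, i2, i3, i4, i5⟩ := hi a.1 a.2
        have tq := ht.trans r1
        have tp := below i i2 t ((Fn.pull_mono _ tq).trans (i3.trans (h a.1 a.2).1))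
        have ho : T.Out (V i 3) (k • e - k • a.1.2.1) t := by
          intro z hz h4
          refine i4 0 (FTop.Chain.zero (hg i).2.1) z (hz.trans tq) (FTop.in_of_eq
            (((hg i).2.1 2).2 _ _ z (hz.trans tp) h4
              (i5 _ z (hz.trans tq) (T.in_mono e4 (hz.trans ht)))) (by abel))
        obtain ⟨q', c1, c2, c3⟩ := α2 i (⟨e, e1⟩, a.1.2) t ho
        obtain ⟨v, v1, v2⟩ := Fn.common_of_res c2 c3
        refine ⟨v, v1, Fn.pull (α i) q', ?_, ?_, (i2.1 _).2 fun z hz => ?_⟩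
        · intro r' w hw
          refine c3 _ w ?_
          have := ((Fn.pull_mono _ tq).trans i3) r' w hw
          simpa [Fn.res, Fn.pull] using this
        · intro r' y' w h5 h6
          rw [← i2.2.2 r' y' h5]
          exact v2 _ w h6
        · exact c1.mono (Fn.le_of_pull c2 hz))
    exact ⟨s', s1.trans (r1.trans q1), ⟨e, e1⟩, T.dn_mono e3 s1, s2⟩
  obtain ⟨i1, -, g1, -⟩ := copy ⊤ ⊤ (fun _ _ _ _ h => by cases h) j0
  have r0 : Rooted σ w0 (p i1) := by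
    intro r y v h1 h2
    rw [← g1.2.1] at h2
    rw [← g1.2.2 r y h1]
    exact h2
  obtain ⟨-, -, e0, -⟩ := step (p i1) (hg i1).1 ∅ finite_empty fun _ h => h.elim
  obtain ⟨f, -, hf⟩ := exists_seq (A := Fn X × Set (Fn ℝ × E) × E) (p i1, ∅, e0)
    (fun _ a => a.1 ≤ p2 ∧ Rooted σ w0 a.1 ∧ a.2.1.Finite ∧
      ∀ b ∈ a.2.1, b.1 ≤ w0 ∧ Rooted σ b.1 a.1)
    (fun _ a b => b.1 ≤ a.1 ∧ T.Dn b.2.2.1 b.1 ∧ a.2.1 ⊆ b.2.1 ∧ (w0, b.2.2) ∈ b.2.1 ∧
      ∀ c ∈ a.2.1, ∃ u' ≤ c.1, (u', b.2.2) ∈ b.2.1 ∧ (u', b.2.2, c.2) ∈ τ)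
    ⟨(hg i1).1, r0, finite_empty, fun _ h => h.elim⟩ (by
      rintro _ ⟨s, S, e'⟩ ⟨h1, h2, h3, h4⟩
      obtain ⟨s', s1, e, s2, s3⟩ := step s h1 S h3 h4
      choose u u1 u2 u3 using s3
      have := h3.to_subtype
      refine ⟨(s', S ∪ insert (w0, e) (range fun a => (u a, e)), e),
        ⟨s1.trans h1, h2.mono s1, h3.union ((finite_range _).insert _), ?_⟩, s1, s2,
        subset_union_left, Or.inr (Or.inl rfl), fun c hc =>
          ⟨u ⟨c, hc⟩, u1 _, Or.inr (Or.inr ⟨_, rfl⟩), u3 _⟩⟩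
      rintro b (hb | rfl | ⟨a, rfl⟩)
      · exact ⟨(h4 b hb).1, (h4 b hb).2.mono s1⟩
      · exact ⟨le_rfl, h2.mono s1⟩
      · exact ⟨(u1 a).trans (h4 a.1 a.2).1, u2 a⟩)
  obtain ⟨t, ht, -⟩ := Fn.exists_lb (s := fun n => (f n).1)
    (antitone_nat_of_succ_le fun n => (hf n).2.1)
  have hm : Monotone fun n => (f n).2.1 := monotone_nat_of_le_succ fun n => (hf n).2.2.2.1
  obtain ⟨r, r1, z, φ, h1, h2⟩ := FTop.conv (T := T) (d := fun n => (f (n + 1)).2.2.1)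
    ((ht 0).trans ((hf 0).1.1.trans (T.op_le (hO 0).1.1)))
    fun n => T.dn_mono (hf n).2.2.1 (ht (n + 1))
  obtain ⟨w, -, hw⟩ := exists_seq w0
    (fun j u => (u, (f (φ j + 1)).2.2) ∈ (f (φ j + 1)).2.1)
    (fun j u u' => u' ≤ u ∧ (u', (f (φ (j + 1) + 1)).2.2, (f (φ j + 1)).2.2) ∈ τ)
    (hf _).2.2.2.2.1 (by
      intro j u hu
      obtain ⟨u', a1, a2, a3⟩ := (hf (φ (j + 1))).2.2.2.2.2 _
        (hm (show φ j + 1 ≤ φ (j + 1) from h1 (Nat.lt_succ_self j)) hu)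
      exact ⟨u', a2, a1, a3⟩)
  obtain ⟨uT, c1, c2⟩ := Fn.exists_lb (s := w) (antitone_nat_of_succ_le fun n => (hw n).2.1)
  obtain ⟨i, -, i2, q, q1, q2⟩ := copy uT r (by
    intro r' y v h3 h4
    obtain ⟨n, hn⟩ := c2 r' v h4
    exact (((hf _).1.2.2.2 _ (hw n).1).2.mono (r1.trans (ht _))) r' y v h3 hn) j0
  have qp := below i i2 q (q2.trans ((c1 0).trans ((hf _).1.2.2.2 _ (hw 0).1).1))
  obtain ⟨v, v1, N, hN⟩ := h2.smul k (V i 4) q q1 (((hg i).2.1 4).1.mono qp)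
  refine (i2.1 _).1 (hw N).2.2 q (q2.trans (c1 _)) v v1 (FTop.in_of_eq
    (((hg i).2.1 3).2 _ _ v (v1.trans qp) (hN (N + 1) (by omega)) (hN N le_rfl)) ?_)
  simp only [smul_sub]
  abel

end Pool.Agent.Lib.MP_fe6d4f_gt
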