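import Mathlib
import Pool.Agent.Lib.MP_fe6d4f_gt.Shatter

/-!
The group, its generic embedding into a product of finite cyclic groups, and the density
arguments for the Hausdorff property and for pseudocompactness.
-/

namespace Pool.Agent.Lib.MP_fe6d4f_gt

open Cardinal Set Classical

def Jx : Type := nu.out → Bool

abbrev Ix : Type := ℕ × Jx

abbrev Xx : Type := Ix × ℝ

abbrev Pd : Type := ∀ i : Ix, ZMod (i.1 + 1)

abbrev Gp : Type := (ℝ →₀ ℤ) × AddCommGroup.torsion Pd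

abbrev Cn : Type := Fn Xx

theorem mk_Jx : #Jx = 2 ^ nu := by simp [Jx]

theorem nu_le_Jx : nu ≤ #Jx := by
  rw [mk_Jx]
  exact (cantor _).le

theorem Jx_inf : ℵ₀ ≤ #Jx := nu_inf.trans nu_le_Jx

theorem no_ftop_gp {p0 : Cn} (T : FTop Xx Gp p0) : False := by
  refine no_ftop (μ := #Jx) Jx_inf ?_ ?_ ?_ (F := {x | x.2 = 0}) ?_ ?_ ?_ T
  · rw [mk_Jx, ← power_mul, mul_eq_self nu_inf]
  · exact mk_prod_le_of Jx_inf (mk_prod_le_of Jx_inf (by simpa using Jx_inf) le_rfl)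
      (mk_real.le.trans (c_le_nu.trans nu_le_Jx))
  · rw [← mk_real]
    exact mk_le_of_injective (f := fun r : ℝ => (((0, fun _ => true), r) : Xx))
      fun a b h => (Prod.mk.inj h).2
  · refine le_trans (mk_le_of_injective (f := fun x : {x : Gp | x.2 = 0} => x.1.1) ?_) ?_
    · intro x y h
      exact Subtype.ext (Prod.ext h (x.2.trans y.2.symm))
    · simpa using mk_real.le
  · intro x
    obtain ⟨n, hn, h⟩ := isOfFinAddOrder_iff_nsmul_eq_zero.1 x.2.2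
    refine ⟨n - 1, ?_⟩
    rw [Nat.sub_add_cancel hn]
    exact Subtype.ext h
  · intro k
    let t : (Jx → Bool) → Pd := fun s i => if i.1 = 2 * k + 1 ∧ s i.2 = true then 1 else 0
    have ht : ∀ s, t s ∈ AddCommGroup.torsion Pd := by
      intro s
      refine isOfFinAddOrder_iff_nsmul_eq_zero.2 ⟨2 * k + 1 + 1, by omega, funext ?_⟩
      rintro ⟨n, j⟩
      by_cases h : n = 2 * k + 1 ∧ s j = true
      · obtain ⟨rfl, h⟩ := h
        simp only [Pi.smul_apply, t, h, and_self, if_true, nsmul_one, Pi.zero_apply]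
        exact ZMod.natCast_self _
      · simp [t, h]
    have hk : ((k + 1 : ℕ) : ZMod (2 * k + 1 + 1)) ≠ 0 := by
      rw [Ne, ZMod.natCast_eq_zero_iff]
      exact Nat.not_dvd_of_pos_of_lt (by omega) (by omega)
    refine lt_of_lt_of_le (cantor #Jx) ?_
    have : (2 : Cardinal) ^ #Jx = #(Jx → Bool) := by simp
    rw [this]
    refine mk_le_of_injective (f := fun s => (⟨(k + 1) • ((0, ⟨t s, ht s⟩) : Gp), _, rfl⟩ :
      range fun x : Gp => (k + 1) • x)) fun s s' h => funext fun j => ?_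
    have h1 := congrFun (congrArg (fun x => x.1.2.1) h) (2 * k + 1, j)
    change (k + 1) • t s (2 * k + 1, j) = (k + 1) • t s' (2 * k + 1, j) at h1
    simp only [t, true_and] at h1
    cases hs : s j <;> cases hs' : s' j <;> simp only [hs, hs', if_true, nsmul_one,
      Bool.false_eq_true, if_false, smul_zero] at h1
    · rfl
    · exact (hk h1.symm).elim
    · exact (hk h1).elim
    · rfl

/-- The value of coordinate `i` computed from a condition. -/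
noncomputable def ev (p : Cn) (i : Ix) (x : Gp) : ZMod (i.1 + 1) :=
  Finsupp.linearCombination ℤ (fun ξ => (((p.1 (i, ξ)).getD 0 : ℤ) : ZMod (i.1 + 1))) x.1 +
    x.2.1 i

theorem ev_sub (p : Cn) (i : Ix) (x y : Gp) : ev p i (x - y) = ev p i x - ev p i y := by
  simp only [ev, Prod.fst_sub, map_sub, Prod.snd_sub, AddSubgroup.coe_sub, Pi.sub_apply]
  abel

theorem ev_zero (p : Cn) (i : Ix) : ev p i 0 = 0 := by simp [ev]

def Dec (p : Cn) (i : Ix) (x : Gp) : Prop := ∀ ξ ∈ x.1.support, p.1 (i, ξ) ≠ none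

theorem Dec.mono {p q : Cn} {i : Ix} {x : Gp} (h : Dec p i x) (hq : q ≤ p) : Dec q i x := by
  intro ξ hξ
  obtain ⟨v, hv⟩ := Option.ne_none_iff_exists'.1 (h ξ hξ)
  simp [hq _ v hv]

theorem Dec.ev {p q : Cn} {i : Ix} {x : Gp} (h : Dec p i x) (hq : q ≤ p) :
    ev q i x = ev p i x := by
  unfold MP_fe6d4f_gt.ev
  congr 1
  simp only [Finsupp.linearCombination_apply]
  refine Finsupp.sum_congr fun ξ hξ => ?_
  obtain ⟨v, hv⟩ := Option.ne_none_iff_exists'.1 (h ξ hξ)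
  rw [hq _ v hv, hv]

/-- Extension by prescribed values on a countable set of new arguments. -/
theorem exists_fill {X : Type} (p : Fn X) {s : Set X} (hs : s.Countable) (v : X → ℤ) :
    ∃ q ≤ p, ∀ x ∈ s, (p.1 x = none → q.1 x = some (v x)) ∧ q.1 x ≠ none := by
  refine ⟨⟨fun x => if p.1 x = none ∧ x ∈ s then some (v x) else p.1 x,
    (p.2.union hs).mono fun x hx => ?_⟩, fun x w hw => by simp [hw], fun x hx => ?_⟩
  · by_contra hc
    simp only [mem_union, mem_ofPred_eq, not_or, not_not] at hc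
    simp [hc.1, hc.2] at hx
  · by_cases h : p.1 x = none <;> simp [h, hx]

theorem dec_dense (p : Cn) {A : Set (Ix × Gp)} (hA : A.Countable) :
    ∃ q ≤ p, ∀ a ∈ A, Dec q a.1 a.2 := by
  obtain ⟨q, q1, q2⟩ := exists_fill p (s := ⋃ a ∈ A, (fun ξ => (a.1, ξ)) '' a.2.1.support)
    (hA.biUnion fun a _ => (Finset.countable_toSet _).image _) fun _ => 0
  exact ⟨q, q1, fun a ha ξ hξ => (q2 _ (mem_biUnion ha ⟨ξ, hξ, rfl⟩)).2⟩

/-- `p` forces that `z` vanishes on the coordinates in `u`. -/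
def Zr (u : Finset Ix) (z : Gp) (p : Cn) : Prop := ∀ q ≤ p, ∀ i ∈ u, Dec q i z → ev q i z = 0

theorem Zr.mono {u : Finset Ix} {z : Gp} {p q : Cn} (h : Zr u z p) (hq : q ≤ p) : Zr u z q :=
  fun r hr => h r (hr.trans hq)

theorem zr_zero (u : Finset Ix) (p : Cn) : Zr u 0 p := fun q _ i _ _ => ev_zero q i

theorem Zr.sub {u : Finset Ix} {z w : Gp} {p : Cn} (h : Zr u z p) (h' : Zr u w p) :
    Zr u (z - w) p := by
  intro q hq i hi hd
  obtain ⟨r, r1, r2⟩ := dec_dense q (A := {(i, z), (i, w)}) (Set.toFinite _).countable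
  rw [← hd.ev r1, ev_sub, h r (r1.trans hq) i hi (r2 (i, z) (by simp)),
    h' r (r1.trans hq) i hi (r2 (i, w) (by simp)), sub_zero]

theorem Zr.subset {u v : Finset Ix} {z : Gp} {p : Cn} (h : Zr u z p) (hv : v ⊆ u) : Zr v z p :=
  fun q hq i hi => h q hq i (hv hi)

theorem zr_of_ev {u : Finset Ix} {x y : Gp} {p : Cn}
    (h : ∀ i ∈ u, Dec p i x ∧ Dec p i y ∧ ev p i y = ev p i x) : Zr u (y - x) p := by
  intro q hq i hi _
  obtain ⟨h1, h2, h3⟩ := h i hi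
  rw [ev_sub, h1.ev hq, h2.ev hq, h3, sub_self]

theorem sep_dense {z : Gp} (hz : z ≠ 0) (p : Cn) : ∃ q ≤ p, ∃ i, Dec q i z ∧ ev q i z ≠ 0 := by
  by_cases h : z.1 = 0
  · have h2 : z.2.1 ≠ 0 := fun h2 => hz (Prod.ext h (Subtype.ext h2))
    obtain ⟨i, hi⟩ := Function.ne_iff.1 h2
    exact ⟨p, le_rfl, i, by simp [Dec, h], by simpa [ev, h] using hi⟩
  obtain ⟨ξ, hξ⟩ := Finsupp.ne_iff.1 h
  obtain ⟨j, hj⟩ : ∃ j : Jx, j ∉ (fun x : Xx => x.1.2) '' p.dom := by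
    by_contra hc
    push Not at hc
    have h1 : (univ : Set Jx).Countable := (p.2.image _).mono fun j _ => hc j
    have h2 := le_aleph0_iff_set_countable.2 h1
    rw [mk_univ] at h2
    exact absurd (c_le_nu.trans (nu_le_Jx.trans h2)) (not_le.2 aleph0_lt_continuum)
  let i : Ix := ((z.1 ξ).natAbs, j)
  have hc : ((z.1 ξ : ℤ) : ZMod (i.1 + 1)) ≠ 0 := by
    rw [Ne, ZMod.intCast_zmod_eq_zero_iff_dvd, Int.natCast_dvd]
    exact Nat.not_dvd_of_pos_of_lt (Int.natAbs_pos.2 hξ) (Nat.lt_succ_self _)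
  obtain ⟨b, hb⟩ : ∃ b : ℤ, z.1 ξ • ((b : ℤ) : ZMod (i.1 + 1)) + z.2.1 i ≠ 0 := by
    by_cases h0 : z.2.1 i = 0
    · exact ⟨1, by simpa [h0] using hc⟩
    · exact ⟨0, by simpa using h0⟩
  obtain ⟨q, q1, q2⟩ := exists_fill p (s := (fun ξ => (i, ξ)) '' z.1.support)
    ((Finset.countable_toSet _).image _) fun x => if x.2 = ξ then b else 0
  refine ⟨q, q1, i, fun η hη => (q2 _ ⟨η, hη, rfl⟩).2, ?_⟩
  have h3 : ∀ η ∈ z.1.support, q.1 (i, η) = some (if η = ξ then b else 0) := by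
    intro η hη
    refine (q2 _ ⟨η, hη, rfl⟩).1 ?_
    by_contra hc
    exact hj ⟨_, hc, rfl⟩
  have h4 : ev q i z = z.1 ξ • ((b : ℤ) : ZMod (i.1 + 1)) + z.2.1 i := by
    unfold ev
    congr 1
    rw [Finsupp.linearCombination_apply, Finsupp.sum, Finset.sum_eq_single ξ]
    · rw [h3 ξ (Finsupp.mem_support_iff.2 hξ)]
      simp
    · intro η hη hne
      rw [h3 η hη]
      simp [hne]
    · intro h
      exact (h (Finsupp.mem_support_iff.2 hξ)).elim
  rwa [h4]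

theorem realise (p : Cn) {S : Set Ix} (hS : S.Countable) (a : Pd) :
    ∃ q ≤ p, ∃ y, ∀ i ∈ S, Dec q i y ∧ ev q i y = a i := by
  obtain ⟨ξ, hξ⟩ : ∃ ξ : ℝ, ξ ∉ (fun x : Xx => x.2) '' p.dom := by
    by_contra hc
    push Not at hc
    exact not_countable_univ ((p.2.image _).mono fun j _ => hc j)
  obtain ⟨q, q1, q2⟩ := exists_fill p (s := (fun i => (i, ξ)) '' S) (hS.image _)
    fun x => ((a x.1).val : ℤ)
  refine ⟨q, q1, (Finsupp.single ξ 1, 0), fun i hi => ⟨fun η hη => ?_, ?_⟩⟩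
  · rw [Finset.mem_singleton.1 (Finsupp.support_single_subset hη)]
    exact (q2 _ ⟨i, hi, rfl⟩).2
  · have := (q2 _ ⟨i, hi, rfl⟩).1 (by
      by_contra hc
      exact hξ ⟨_, hc, rfl⟩)
    simp [ev, this]

theorem pc_dense (Val : Gp → ℝ → Cn → Prop) (p : Cn) :
    ∃ q ≤ p, (∃ n : ℕ, ∀ x a, ∀ r ≤ q, Val x a r → |a| ≤ n) ∨
      (∃ x, ∀ r ≤ q, ∀ a, ¬ Val x a r) ∨ ∃ x a, Val x a q ∧
        ∀ u, ∀ r ≤ q, ∃ s ≤ r, ∃ y b, Zr u (y - x) s ∧ Val y b s ∧ 1 ≤ |a - b| := by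
  by_contra hc
  push Not at hc
  have loc : ∀ q ≤ p, ∀ x a, Val x a q → ∃ r ≤ q, ∃ u : Finset Ix, (∀ i ∈ u, Dec r i x) ∧
      ∀ s ≤ r, ∀ y b, Zr u (y - x) s → Val y b s → |a - b| < 1 := by
    intro q hq x a h
    obtain ⟨u, r, r1, r2⟩ := (hc q hq).2.2 x a h
    obtain ⟨s, s1, s2⟩ := dec_dense r (A := (fun i => (i, x)) '' u)
      ((Finset.countable_toSet _).image _)
    exact ⟨s, s1.trans r1, u, fun i hi => s2 _ ⟨i, hi, rfl⟩, fun t ht => r2 t (ht.trans s1)⟩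
  obtain ⟨f, -, hf⟩ := exists_seq (A := Cn × Gp × ℝ × Finset Ix) (p, 0, 0, ∅)
    (fun _ a => a.1 ≤ p) (fun n a b => b.1 ≤ a.1 ∧ (n : ℝ) < |b.2.2.1| ∧
      (∀ i ∈ b.2.2.2, Dec b.1 i b.2.1) ∧ ∀ s ≤ b.1, ∀ y c, Zr b.2.2.2 (y - b.2.1) s →
        Val y c s → |b.2.2.1 - c| < 1) le_rfl (by
      intro n a ha
      obtain ⟨x, c, r, r1, r2, r3⟩ := (hc a.1 ha).1 n
      obtain ⟨s, s1, u, u1, u2⟩ := loc r (r1.trans ha) x c r2
      exact ⟨(s, x, c, u), s1.trans (r1.trans ha), s1.trans r1, r3, u1, u2⟩)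
  obtain ⟨t, ht, -⟩ := Fn.exists_lb (s := fun n => (f n).1)
    (antitone_nat_of_succ_le fun n => (hf n).2.1)
  have hlim : ∀ i : Ix, ∃ a : ZMod (i.1 + 1), ∀ᶠ n in (Filter.hyperfilter ℕ : Filter ℕ),
      ev t i (f (n + 1)).2.1 = a := by
    intro i
    obtain ⟨a, ha⟩ := Ultrafilter.eq_pure_of_finite
      ((Filter.hyperfilter ℕ).map fun n => ev t i (f (n + 1)).2.1)
    refine ⟨a, ?_⟩
    have : {a} ∈ (Filter.hyperfilter ℕ).map fun n => ev t i (f (n + 1)).2.1 := by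
      rw [ha]
      exact Ultrafilter.mem_pure.2 rfl
    exact this
  choose a ha using hlim
  obtain ⟨q1, b1, y0, y1⟩ := realise t (S := ⋃ n, ((f (n + 1)).2.2.2 : Set Ix))
    (countable_iUnion fun n => Finset.countable_toSet _) a
  have q1p := b1.trans ((ht 0).trans (hf 0).1)
  obtain ⟨q2, b2, c0, c1⟩ := (hc q1 q1p).2.1 y0
  obtain ⟨q3, b3, u, u1, u2⟩ := loc q2 (b2.trans q1p) y0 c0 c1
  obtain ⟨N, hN⟩ := exists_nat_gt (|c0| + 2)
  obtain ⟨n, n1, n2⟩ := (((Filter.eventually_all_finset u).2 fun i _ => ha i).and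
    (Filter.hyperfilter_le_cofinite (by
      rw [Nat.cofinite_eq_atTop]
      exact Filter.eventually_ge_atTop N))).exists
  have q3t := b3.trans (b2.trans b1)
  obtain ⟨q4, b4, z, z1⟩ := realise q3 (S := (u : Set Ix) ∪ (f (n + 1)).2.2.2)
    ((Finset.countable_toSet _).union (Finset.countable_toSet _))
    fun i => if i ∈ u then ev q3 i y0 else ev t i (f (n + 1)).2.1
  obtain ⟨q5, b5, c, c2⟩ := (hc q4 (b4.trans (b3.trans (b2.trans q1p)))).2.1 z
  have h1 := u2 q5 (b5.trans b4) z c (Zr.mono (zr_of_ev fun i hi => ⟨(u1 i hi).mono b4,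
    (z1 i (Or.inl hi)).1, by rw [(z1 i (Or.inl hi)).2, if_pos hi, (u1 i hi).ev b4]⟩) b5) c2
  have h2 := (hf n).2.2.2.2 q5 (b5.trans (b4.trans (q3t.trans (ht _)))) z c
    (Zr.mono (zr_of_ev fun i hi => by
      have d1 := ((hf n).2.2.2.1 i hi).mono (ht _)
      refine ⟨d1.mono (b4.trans q3t), (z1 i (Or.inr hi)).1, ?_⟩
      rw [(z1 i (Or.inr hi)).2, d1.ev (b4.trans q3t)]
      split_ifs with h
      · have := y1 i (mem_iUnion.2 ⟨n, hi⟩)
        rw [this.1.ev (b3.trans b2), this.2, n1 i h]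
      · rfl) b5) c2
  have h3 := (hf n).2.2.1
  have h4 : (N : ℝ) ≤ n := by exact_mod_cast n2
  have h5 := abs_sub_abs_le_abs_sub (f (n + 1)).2.2.1 c
  have h6 := abs_sub_abs_le_abs_sub c c0
  rw [abs_sub_comm c c0] at h6
  linarith

end Pool.Agent.Lib.MP_fe6d4f_gt
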