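import Mathlib
import Pool.Agent.Shared.Forcing
import Pool.Agent.Lib.MP_fe6d4f_gt.Generic
import Pool.Agent.Lib.MP_fe6d4f_gt.Defs

/-!
Names for the group and its topology, and the families of witnesses and dense sets.
-/

namespace Pool.Agent.Lib.MP_fe6d4f_gt

open Set Classical Pool.Agent.Lib.MP_053343_lc Pool.Agent.Lib.MP_053343_lc.Name
  Pool.Agent.Shared.Forcing

section gen

variable {P : Type} [Preorder P] [OrderTop P] {κ : Type}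

def RR (Φ : κ → List (Name P) → P → Name P → Prop) (k : κ) (l : List (Name P)) (x : Name P) :
    Prop := ∃ p, dC (l.getD 0 empty) ≤ p ∧ Φ k l.tail p x

def DD (Φ : κ → List (Name P) → P → Name P → Prop) (k : κ) (l : List (Name P)) : Set P :=
  {p | ∃ x, Φ k l p x}

variable {Φ : κ → List (Name P) → P → Name P → Prop} (C : Ctx (RR Φ) (DD Φ))

theorem gen (k : κ) {l : List (Name P)} (hl : ∀ x ∈ l, x ∈ C.N) :
    (∃ p ∈ C.G, ∃ x ∈ C.N, Φ k l p x) ∨ ∃ p ∈ C.G, ∀ q ≤ p, ∀ x, ¬ Φ k l q x := by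
  obtain ⟨p, hp, ⟨x, h⟩ | h⟩ := C.udec k hl
  · obtain ⟨q, hq, q1, q2⟩ := C.cof p hp
    obtain ⟨y, hy, r, r1, r2⟩ := C.uwit k (C.cons q2 hl) ⟨x, p, by simpa using q1, h⟩
    exact Or.inl ⟨r, C.up q hq r (by simpa using r1), y, hy, r2⟩
  · exact Or.inr ⟨p, hp, fun q hq x h' => h q hq ⟨x, h'⟩⟩

theorem genD (k : κ) {l : List (Name P)} (hl : ∀ x ∈ l, x ∈ C.N) {p : P} (hp : p ∈ C.G)
    (hd : ∀ q ≤ p, ∃ r ≤ q, ∃ x, Φ k l r x) : ∃ q ∈ C.G, ∃ x ∈ C.N, Φ k l q x := by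
  rcases gen C k hl with h | ⟨q, hq, h⟩
  · exact h
  · obtain ⟨s, _, s1, s2⟩ := C.dir p hp q hq
    obtain ⟨r, r1, x, hx⟩ := hd s s1
    exact (h r (r1.trans s2) x hx).elim

noncomputable def chk {A : Type} : A → Name P :=
  (IsWellFounded.wf (r := (WellOrderingRel : A → A → Prop))).fix fun a f =>
    setN fun b : {b // WellOrderingRel b a} => f b.1 b.2

theorem chk_eq {A : Type} (a : A) :
    (chk a : Name P) = setN fun b : {b // WellOrderingRel b a} => chk b.1 :=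
  WellFounded.fix_eq _ _ _

theorem feq_chk {A : Type} {a : A} : ∀ {b : A} {p : P}, FEq (chk a) (chk b) p → a = b := by
  induction a using (IsWellFounded.wf (r := (WellOrderingRel : A → A → Prop))).induction with
  | h a ih =>
    intro b p h
    rw [chk_eq a, chk_eq b, feq_iff] at h
    rcases trichotomous_of WellOrderingRel a b with hl | hl | hl
    · obtain ⟨r, _, i, _, h'⟩ := h.2 ⟨a, hl⟩ p le_rfl le_top
      have := ih _ i.2 h'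
      exact (irrefl_of WellOrderingRel a (by simpa [this] using i.2)).elim
    · exact hl
    · obtain ⟨r, _, i, _, h'⟩ := h.1 ⟨b, hl⟩ p le_rfl le_top
      have := ih _ hl h'
      exact (irrefl_of WellOrderingRel b (by simpa [← this] using i.2)).elim

theorem chk_inj {A : Type} {a b : A} (h : (chk a : Name P) = chk b) : a = b :=
  feq_chk (p := (⊤ : P)) (h ▸ FEq.refl _ _)

end gen

abbrev Nm : Type 1 := Name Cn

def InN (U : Nm) (x : Gp) (p : Cn) : Prop := ∀ q ≤ p, ∃ r ≤ q, FMem (chk x) U r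

def OutN (U : Nm) (x : Gp) (p : Cn) : Prop := ∀ q ≤ p, ¬ FMem (chk x) U q

theorem InN.mono {U : Nm} {x : Gp} {p q : Cn} (h : InN U x p) (hq : q ≤ p) : InN U x q :=
  fun r hr => h r (hr.trans hq)

theorem InN.not_out {U : Nm} {x : Gp} {p : Cn} (h : InN U x p) (h' : OutN U x p) : False := by
  obtain ⟨r, r1, r2⟩ := h p le_rfl
  exact h' r r1 r2

theorem OutN.mono {U : Nm} {x : Gp} {p q : Cn} (h : OutN U x p) (hq : q ≤ p) : OutN U x q :=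
  fun r hr => h r (hr.trans hq)

theorem out_of_not {U : Nm} {x : Gp} {p : Cn} (h : ¬ InN U x p) : ∃ q ≤ p, OutN U x q := by
  unfold InN at h
  push Not at h
  exact h

theorem in_of_forall {U : Nm} {x : Gp} {p : Cn} (h : ∀ q ≤ p, ¬ OutN U x q) : InN U x p := by
  by_contra hc
  obtain ⟨q, q1, q2⟩ := out_of_not hc
  exact h q q1 q2

noncomputable def subN (S : Set (Gp × Cn)) : Nm := ⟨S, fun z => chk z.1.1, fun z => z.1.2⟩

def OpenN (U : Nm) (p : Cn) : Prop :=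
  ∀ x, ∀ q ≤ p, InN U x q → ∃ r ≤ q, ∃ u, ∀ y, ∀ s ≤ r, Zr u (y - x) s → InN U y s

noncomputable def topN : Nm :=
  ⟨{z : Set (Gp × Cn) × Cn // OpenN (subN z.1) z.2}, fun z => subN z.1.1, fun z => z.1.2⟩

noncomputable def addN : Nm :=
  setN fun z : Gp × Gp => pairN (pairN (chk z.1) (chk z.2)) (chk (z.1 + z.2))

def ratN (S : Set ℚ) : Nm := setN fun q : S => codeN q.1

def seqN (U : ℕ → Nm) : Nm := setN fun n => pairN (natN n) (U n)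

def Val (f : Nm) (x : Gp) (a : ℝ) (p : Cn) : Prop := FMem (pairN (chk x) (cutN a)) f p

def Dn (t s : Nm) (d : Gp) (p : Cn) : Prop :=
  ∃ U, FMem U t p ∧ FMem (pairN U (chk d)) s p ∧ InN U d p

def F1 (t : Nm) (p : Cn) (w : Nm) : Prop := ∃ x : Gp, w = chk x ∧ x ≠ 0 ∧
  ∀ r ≤ p, ∀ U, ¬ (FMem U t r ∧ InN U 0 r ∧ ∀ s ≤ r, ¬ InN U x s)

def F2 (t : Nm) (p : Cn) (w : Nm) : Prop := ∃ U x y, w = pairN U (pairN (chk x) (chk y)) ∧
  FMem U t p ∧ InN U (x - y) p ∧ ∀ r ≤ p, ∀ V W, ¬ (FMem V t r ∧ FMem W t r ∧ InN V x r ∧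
    InN W y r ∧ ∀ x' y', ∀ s ≤ r, InN V x' s → InN W y' s → InN U (x' - y') s)

def F3 (t : Nm) (p : Cn) (w : Nm) : Prop := ∃ U V, w = pairN U V ∧ FMem U t p ∧ FMem V t p ∧
  ∀ r ≤ p, ∀ W, ¬ (FMem W t r ∧ ∀ x, ∀ s ≤ r, InN W x s ↔ InN U x s ∧ InN V x s)

def F4 (t s : Nm) (p : Cn) (w : Nm) : Prop := ∃ U x, w = pairN U (chk x) ∧ FMem U t p ∧
  InN U x p ∧ ∀ r ≤ p, ∀ d, ¬ (Dn t s d r ∧ InN U d r)

def F5 (t s : Nm) (p : Cn) (w : Nm) : Prop := ∃ (U : ℕ → Nm) (d : ℕ → Gp),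
  w = pairN (seqN U) (pairN (setN fun n => chk (d n)) (chk d)) ∧
  (∀ n, FMem (U n) t p ∧ FMem (pairN (U n) (chk (d n))) s p ∧ InN (U n) (d n) p) ∧
  ∀ r ≤ p, ∀ x, ∀ φ : ℕ → ℕ, StrictMono φ → ∃ V, ∃ q ≤ r, FMem V t q ∧ InN V x q ∧
    ∀ N, ∃ n ≥ N, ∀ v ≤ q, ¬ InN V (d (φ n)) v

theorem fail_dense (t s : Nm) (p : Cn) :
    ∃ q ≤ p, ∃ w, F1 t q w ∨ F2 t q w ∨ F3 t q w ∨ F4 t s q w ∨ F5 t s q w := by
  by_contra hc
  push Not at hc
  refine no_ftop_gp (p0 := p)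
    { O := Nm, Op := fun U q => FMem U t q ∧ q ≤ p, In := InN, Dn := Dn t s
      op_mono := fun h hq => ⟨h.1.mono hq, hq.trans h.2⟩
      in_mono := InN.mono
      dn_mono := fun ⟨U, h1, h2, h3⟩ hq => ⟨U, h1.mono hq, h2.mono hq, h3.mono hq⟩
      op_le := fun h => h.2
      in_reg := fun h q hq => ?_, t1 := fun x hx q hq => ?_, sub := ?_, inter := ?_, st := ?_
      win := ?_ }
  · obtain ⟨r, r1, r2⟩ := h q hq
    obtain ⟨v, v1, v2⟩ := r2 r le_rfl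
    exact ⟨v, v1.trans r1, v2⟩
  · by_contra h
    exact (hc q hq _).1 ⟨x, rfl, hx, fun r hr U ⟨h1, h2⟩ => h ⟨r, hr, U, ⟨h1, hr.trans hq⟩, h2⟩⟩
  · intro U x y q h1 h2
    by_contra h
    exact (hc q h1.2 _).2.1 ⟨U, x, y, rfl, h1.1, h2, fun r hr V W ⟨a, b, c⟩ =>
      h ⟨r, hr, V, W, ⟨a, hr.trans h1.2⟩, ⟨b, hr.trans h1.2⟩, c⟩⟩
  · intro U V q h1 h2
    by_contra h
    exact (hc q h1.2 _).2.2.1 ⟨U, V, rfl, h1.1, h2.1, fun r hr W ⟨a, b⟩ =>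
      h ⟨r, hr, W, ⟨a, hr.trans h1.2⟩, b⟩⟩
  · intro U x q h1 h2
    by_contra h
    exact (hc q h1.2 _).2.2.2.1 ⟨U, x, rfl, h1.1, h2, fun r hr d a => h ⟨r, hr, d, a⟩⟩
  · intro d q hq h1
    by_contra h
    push Not at h
    choose U hU using h1
    refine (hc q hq _).2.2.2.2 ⟨U, d, rfl, hU, fun r hr x φ hφ => ?_⟩
    obtain ⟨V, v, v1, v2, v3, v4⟩ := h r hr x φ hφ
    exact ⟨V, v, v1, v2.1, v3, v4⟩

inductive UK : Type
  | grp | add | top | zero | sub | emp | uni | nice | basic | opn | nopn | nopn2 | sep | rat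
  | pc | pc2 | fail | incl | inter | gr | nconv
  deriving Countable

def Ph : UK → List Nm → Cn → Nm → Prop
  | .grp, _, _, w => w = setN (chk : Gp → Nm)
  | .add, _, _, w => w = addN
  | .top, _, _, w => w = topN
  | .zero, _, _, w => w = chk (0 : Gp)
  | .sub, l, _, w => ∃ x y : Gp, l = [chk x, chk y] ∧ w = chk (x - y)
  | .emp, _, _, w => w = chk (∅ : Finset Ix)
  | .uni, l, _, w => ∃ u v : Finset Ix, l = [chk u, chk v] ∧ w = chk (u ∪ v)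
  | .nice, l, _, w => w = subN {z | InN (l.getD 0 empty) z.1 z.2}
  | .basic, l, _, w => ∃ x u, l = [chk x, chk u] ∧ w = subN {z | Zr u (z.1 - x) z.2}
  | .opn, l, r, w => ∃ x u, l.getD 1 empty = chk x ∧ w = chk u ∧
      ∀ y, ∀ s ≤ r, Zr u (y - x) s → InN (l.getD 0 empty) y s
  | .nopn, l, q, w => ∃ x, w = chk x ∧ InN (l.getD 0 empty) x q ∧
      ∀ r ≤ q, ∀ u, ∃ y, ∃ s ≤ r, Zr u (y - x) s ∧ ¬ InN (l.getD 0 empty) y s
  | .nopn2, l, s, w => ∃ x u y, l.tail = [chk x, chk u] ∧ w = chk y ∧ Zr u (y - x) s ∧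
      OutN (l.getD 0 empty) y s
  | .sep, l, p, w => ∃ z i, l = [chk z] ∧ w = chk ({i} : Finset Ix) ∧ Dec p i z ∧ ev p i z ≠ 0
  | .rat, l, p, w => (∀ q, FMem (codeN q) (l.getD 0 empty) p ∨
      ∀ r ≤ p, ¬ FMem (codeN q) (l.getD 0 empty) r) ∧
      w = ratN {q | FMem (codeN q) (l.getD 0 empty) p}
  | .pc, l, q, w => (∃ n : ℕ, ∀ x a, ∀ r ≤ q, Val (l.getD 0 empty) x a r → |a| ≤ n) ∨
      (∃ x, w = chk x ∧ ∀ r ≤ q, ∀ a, ¬ Val (l.getD 0 empty) x a r) ∨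
      ∃ x a, w = pairN (pairN (chk x) (cutN a)) (chk a) ∧ Val (l.getD 0 empty) x a q ∧
        ∀ u, ∀ r ≤ q, ∃ s ≤ r, ∃ y b, Zr u (y - x) s ∧ Val (l.getD 0 empty) y b s ∧ 1 ≤ |a - b|
  | .pc2, l, s, w => ∃ x u y, ∃ a b : ℝ, l.tail = [chk x, chk u, chk a] ∧
      w = pairN (chk y) (cutN b) ∧ Zr u (y - x) s ∧ Val (l.getD 0 empty) y b s ∧ 1 ≤ |a - b|
  | .fail, l, q, w => F1 (l.getD 0 empty) q w ∨ F2 (l.getD 0 empty) q w ∨
      F3 (l.getD 0 empty) q w ∨ F4 (l.getD 0 empty) (l.getD 1 empty) q w ∨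
      F5 (l.getD 0 empty) (l.getD 1 empty) q w
  | .incl, l, s, w => ∃ x y, w = pairN (chk x) (chk y) ∧ InN (l.getD 1 empty) x s ∧
      InN (l.getD 2 empty) y s ∧ OutN (l.getD 0 empty) (x - y) s
  | .inter, l, s, w => ∃ x, w = chk x ∧ ((InN (l.getD 2 empty) x s ∧
      (OutN (l.getD 0 empty) x s ∨ OutN (l.getD 1 empty) x s)) ∨
      (InN (l.getD 0 empty) x s ∧ InN (l.getD 1 empty) x s ∧ OutN (l.getD 2 empty) x s))
  | .gr, l, p, w => (∀ z : ℕ × ℕ, FMem (pairN (natN z.1) (natN z.2)) (l.getD 0 empty) p ∨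
      ∀ r ≤ p, ¬ FMem (pairN (natN z.1) (natN z.2)) (l.getD 0 empty) r) ∧
      w = chk {z : ℕ × ℕ | FMem (pairN (natN z.1) (natN z.2)) (l.getD 0 empty) p}
  | .nconv, l, q, V => ∃ (d : ℕ → Gp) (x : Gp) (φ : ℕ → ℕ),
      l.tail = [chk d, chk x, chk {z : ℕ × ℕ | z.2 = φ z.1}] ∧ FMem V (l.getD 0 empty) q ∧
      InN V x q ∧ ∀ N, ∃ n ≥ N, ∀ v ≤ q, ¬ InN V (d (φ n)) v

theorem decide_all {ι : Type} [Countable ι] (A : ι → Nm) (σ : Nm) (p : Cn) :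
    ∃ q ≤ p, ∀ i, FMem (A i) σ q ∨ ∀ r ≤ q, ¬ FMem (A i) σ r := by
  refine Fn.dense_all (fun i q => FMem (A i) σ q ∨ ∀ r ≤ q, ¬ FMem (A i) σ r)
    (fun i p q h hq => h.imp (fun h => h.mono hq) fun h r hr => h r (hr.trans hq)) p
    fun i q _ => ?_
  by_cases h : ∃ r ≤ q, FMem (A i) σ r
  · obtain ⟨r, r1, r2⟩ := h
    exact ⟨r, r1, Or.inl r2⟩
  · exact ⟨q, le_rfl, Or.inr fun r hr h' => h ⟨r, hr, h'⟩⟩

end Pool.Agent.Lib.MP_fe6d4f_gt
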