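import Mathlib
import Pool.Agent.Lib.MP_fe6d4f_gt.Names

/-!
The generic extension: the group, its pseudocompact group topology.
-/

namespace Pool.Agent.Lib.MP_fe6d4f_gt

open Set Classical Pool.Agent.Lib.MP_053343_lc Pool.Agent.Lib.MP_053343_lc.Name
  Pool.Agent.Shared.Forcing

abbrev Cx : Type 1 := Ctx (RR Ph) (DD Ph)

variable (C : Cx)

theorem gfun (k : UK) {l : List Nm} (hl : ∀ x ∈ l, x ∈ C.N) {y : Nm}
    (h : ∀ p x, Ph k l p x ↔ x = y) : y ∈ C.N := by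
  obtain ⟨q, -, x, hx, e⟩ := genD C k hl C.top fun q _ => ⟨q, le_rfl, y, (h q y).2 rfl⟩
  rwa [(h q x).1 e] at hx

noncomputable def pi (x : Gp) : ZFSet := C.val (chk x)

noncomputable def Gz : ZFSet := C.val (setN (chk : Gp → Nm))

def GN (x : Gp) : Prop := (chk x : Nm) ∈ C.N

def UN (u : Finset Ix) : Prop := (chk u : Nm) ∈ C.N

variable {C}

theorem mem_Gz {z : ZFSet} : z ∈ Gz C ↔ ∃ x, GN C x ∧ z = pi C x := by
  rw [Gz, C.mem_val]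
  exact ⟨fun ⟨i, h1, _, h2⟩ => ⟨i, h1, h2⟩, fun ⟨b, h1, h2⟩ => ⟨b, h1, C.top, h2⟩⟩

theorem GN.mem {x : Gp} (h : GN C x) : pi C x ∈ Gz C := mem_Gz.2 ⟨x, h, rfl⟩

theorem pi_inj {x y : Gp} (hx : GN C x) (hy : GN C y) (h : pi C x = pi C y) : x = y := by
  obtain ⟨p, _, h⟩ := (C.val_eq_iff hx hy).1 h
  exact feq_chk h

theorem gn_zero : GN C 0 := gfun C .zero C.nil fun _ _ => Iff.rfl

theorem GN.sub {x y : Gp} (hx : GN C x) (hy : GN C y) : GN C (x - y) :=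
  gfun C .sub (C.two hx hy) fun _ _ => ⟨fun ⟨a, b, h, e⟩ => by
    simp only [List.cons.injEq, and_true] at h
    rw [e, chk_inj h.1, chk_inj h.2], fun e => ⟨x, y, rfl, e⟩⟩

theorem GN.neg {x : Gp} (hx : GN C x) : GN C (-x) := by simpa using gn_zero.sub hx

theorem GN.add {x y : Gp} (hx : GN C x) (hy : GN C y) : GN C (x + y) := by
  simpa using hx.sub hy.neg

theorem un_empty : UN C ∅ := gfun C .emp C.nil fun _ _ => Iff.rfl

theorem UN.union {u v : Finset Ix} (hu : UN C u) (hv : UN C v) : UN C (u ∪ v) :=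
  gfun C .uni (C.two hu hv) fun _ _ => ⟨fun ⟨a, b, h, e⟩ => by
    simp only [List.cons.injEq, and_true] at h
    rw [e, chk_inj h.1, chk_inj h.2], fun e => ⟨u, v, rfl, e⟩⟩

theorem out_of_not_mem {U : Nm} (hU : U ∈ C.N) {x : Gp} (hx : GN C x) (h : pi C x ∉ C.val U) :
    ∃ p ∈ C.G, OutN U x p := by
  obtain ⟨p, hp, h1 | h1⟩ := C.gfrc (.mem 0 1) (C.two hx hU)
  · exact (h ((C.val_mem_iff hx hU).2 ⟨p, hp, h1⟩)).elim
  · exact ⟨p, hp, h1⟩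

theorem in_iff {U : Nm} (hU : U ∈ C.N) {x : Gp} (hx : GN C x) :
    pi C x ∈ C.val U ↔ ∃ p ∈ C.G, InN U x p := by
  constructor
  · intro h
    obtain ⟨p, hp, h1⟩ := (C.val_mem_iff hx hU).1 h
    exact ⟨p, hp, fun q hq => ⟨q, le_rfl, h1.mono hq⟩⟩
  · rintro ⟨p, hp, h⟩
    by_contra hc
    obtain ⟨q, hq, h1⟩ := out_of_not_mem hU hx hc
    obtain ⟨r, _, r1, r2⟩ := C.dir p hp q hq
    exact (h.mono r1).not_out (h1.mono r2)

theorem not_mem_of_out {U : Nm} (hU : U ∈ C.N) {x : Gp} (hx : GN C x) {p : Cn} (hp : p ∈ C.G)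
    (h : OutN U x p) : pi C x ∉ C.val U := by
  intro h1
  obtain ⟨q, hq, h2⟩ := (in_iff hU hx).1 h1
  obtain ⟨r, _, r1, r2⟩ := C.dir p hp q hq
  exact (h2.mono r2).not_out (h.mono r1)

theorem mem_subN {S : Set (Gp × Cn)} {z : ZFSet} :
    z ∈ C.val (subN S) ↔ ∃ x p, (x, p) ∈ S ∧ GN C x ∧ p ∈ C.G ∧ z = pi C x := by
  rw [C.mem_val]
  exact ⟨fun ⟨⟨⟨x, p⟩, h⟩, h1, h2, h3⟩ => ⟨x, p, h, h1, h2, h3⟩,
    fun ⟨x, p, h, h1, h2, h3⟩ => ⟨⟨(x, p), h⟩, h1, h2, h3⟩⟩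

variable (C) in
noncomputable def dG (a : ZFSet) : Gp := if h : ∃ x, GN C x ∧ a = pi C x then h.choose else 0

theorem dG_pi {x : Gp} (hx : GN C x) : dG C (pi C x) = x := by
  have h : ∃ y, GN C y ∧ pi C x = pi C y := ⟨x, hx, rfl⟩
  rw [dG, dif_pos h]
  exact (pi_inj hx h.choose_spec.1 h.choose_spec.2).symm

variable (C) in
noncomputable def addZ (a b : ZFSet) : ZFSet := pi C (dG C a + dG C b)

theorem addZ_pi {x y : Gp} (hx : GN C x) (hy : GN C y) :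
    addZ C (pi C x) (pi C y) = pi C (x + y) := by rw [addZ, dG_pi hx, dG_pi hy]

theorem abGrp : AbGrp C.M (Gz C) (addZ C) (pi C 0) where
  mem := C.val_mem_M (gfun C .grp C.nil fun _ _ => Iff.rfl)
  graph := by
    refine ⟨_, C.val_mem_M (gfun C .add C.nil (y := addN) fun _ _ => Iff.rfl), fun z => ?_⟩
    rw [C.mem_val]
    constructor
    · rintro ⟨⟨x, y⟩, h1, -, rfl⟩
      have h2 := C.pairN_left h1
      have hx : GN C x := C.pairN_left h2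
      have hy : GN C y := C.pairN_right h2
      refine ⟨_, hx.mem, _, hy.mem, ?_⟩
      rw [addZ_pi hx hy]
      exact (C.val_pairN h1).trans (by rw [C.val_pairN h2]; rfl)
    · rintro ⟨_, hx0, _, hy0, rfl⟩
      obtain ⟨x, hx, rfl⟩ := mem_Gz.1 hx0
      obtain ⟨y, hy, rfl⟩ := mem_Gz.1 hy0
      have h2 := C.pair_memN hx hy
      have h1 := C.pair_memN h2 (hx.add hy)
      refine ⟨(x, y), h1, C.top, ?_⟩
      rw [addZ_pi hx hy]
      exact ((C.val_pairN h1).trans (by rw [C.val_pairN h2]; rfl)).symm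
  closed := by
    intro _ hx0 _ hy0
    obtain ⟨x, hx, rfl⟩ := mem_Gz.1 hx0
    obtain ⟨y, hy, rfl⟩ := mem_Gz.1 hy0
    rw [addZ_pi hx hy]
    exact (hx.add hy).mem
  assoc := by
    intro _ hx0 _ hy0 _ hz0
    obtain ⟨x, hx, rfl⟩ := mem_Gz.1 hx0
    obtain ⟨y, hy, rfl⟩ := mem_Gz.1 hy0
    obtain ⟨z, hz, rfl⟩ := mem_Gz.1 hz0
    rw [addZ_pi hx hy, addZ_pi hy hz, addZ_pi (hx.add hy) hz, addZ_pi hx (hy.add hz), add_assoc]
  comm := by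
    intro _ hx0 _ hy0
    obtain ⟨x, hx, rfl⟩ := mem_Gz.1 hx0
    obtain ⟨y, hy, rfl⟩ := mem_Gz.1 hy0
    rw [addZ_pi hx hy, addZ_pi hy hx, add_comm]
  zero_mem := gn_zero.mem
  zero_add := by
    intro _ hx0
    obtain ⟨x, hx, rfl⟩ := mem_Gz.1 hx0
    rw [addZ_pi gn_zero hx, zero_add]
  neg := by
    intro _ hx0
    obtain ⟨x, hx, rfl⟩ := mem_Gz.1 hx0
    exact ⟨_, hx.neg.mem, by rw [addZ_pi hx hx.neg, add_neg_cancel]⟩

variable (C) in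
def ZG (u : Finset Ix) (z : Gp) : Prop := ∃ p ∈ C.G, Zr u z p

theorem zg_zero (u : Finset Ix) : ZG C u 0 := ⟨⊤, C.top, zr_zero u ⊤⟩

theorem ZG.sub {u : Finset Ix} {z w : Gp} (h : ZG C u z) (h' : ZG C u w) : ZG C u (z - w) := by
  obtain ⟨p, hp, h⟩ := h
  obtain ⟨q, hq, h'⟩ := h'
  obtain ⟨r, hr, r1, r2⟩ := C.dir p hp q hq
  exact ⟨r, hr, (h.mono r1).sub (h'.mono r2)⟩

theorem ZG.add {u : Finset Ix} {z w : Gp} (h : ZG C u z) (h' : ZG C u w) : ZG C u (z + w) := by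
  simpa using h.sub ((zg_zero u).sub h')

theorem ZG.of_eq {u : Finset Ix} {z w : Gp} (h : ZG C u z) (e : z = w) : ZG C u w := e ▸ h

variable (C) in
def SO (U : ZFSet) : Prop := U ⊆ Gz C ∧ ∀ x, GN C x → pi C x ∈ U → ∃ u, UN C u ∧
  ∀ y, GN C y → ZG C u (y - x) → pi C y ∈ U

theorem mem_top {U : ZFSet} : U ∈ C.val topN ↔ U ∈ C.M ∧ SO C U := by
  rw [C.mem_val]
  constructor
  · rintro ⟨⟨⟨S, p⟩, h⟩, h1, h2, rfl⟩
    change subN S ∈ C.N at h1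
    change p ∈ C.G at h2
    change OpenN (subN S) p at h
    refine ⟨C.val_mem_M h1, fun z hz => ?_, fun x hx hm => ?_⟩
    · obtain ⟨x, _, _, hx, _, rfl⟩ := mem_subN.1 hz
      exact hx.mem
    · obtain ⟨q, hq, h3⟩ := (in_iff h1 hx).1 hm
      obtain ⟨s, hs, s1, s2⟩ := C.dir p h2 q hq
      obtain ⟨r, hr, _, hw, x', u, e, rfl, h4⟩ := genD C .opn (C.two h1 hx) hs fun t ht => by
        obtain ⟨r, r1, u, r2⟩ := h x t (ht.trans s1) (h3.mono (ht.trans s2))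
        exact ⟨r, r1, _, x, u, rfl, rfl, r2⟩
      obtain rfl : x = x' := chk_inj e
      refine ⟨u, hw, fun y hy ⟨t, ht, h5⟩ => ?_⟩
      obtain ⟨v, hv, v1, v2⟩ := C.dir r hr t ht
      exact (in_iff h1 hy).2 ⟨v, hv, h4 y v v1 (h5.mono v2)⟩
  · rintro ⟨hM, h1, h2⟩
    obtain ⟨σ, hσ, rfl⟩ := C.mem_M.1 hM
    have hn : subN {z | InN σ z.1 z.2} ∈ C.N := gfun C .nice (C.one hσ) fun _ _ => Iff.rfl
    have e : C.val (subN {z | InN σ z.1 z.2}) = C.val σ := by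
      ext z
      rw [mem_subN]
      constructor
      · rintro ⟨x, p, h, hx, hp, rfl⟩
        exact (in_iff hσ hx).2 ⟨p, hp, h⟩
      · intro hz
        obtain ⟨x, hx, rfl⟩ := mem_Gz.1 (h1 hz)
        obtain ⟨p, hp, h⟩ := (in_iff hσ hx).1 hz
        exact ⟨x, p, h, hx, hp, rfl⟩
    rw [← e] at h2 ⊢
    generalize ({z | InN σ z.1 z.2} : Set (Gp × Cn)) = S at hn h2
    rcases gen C .nopn (C.one hn) with ⟨q, hq, _, hx, x, rfl, h3, h4⟩ | ⟨p, hp, h⟩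
    · exfalso
      obtain ⟨u, hu, h5⟩ := h2 x hx ((in_iff hn hx).2 ⟨q, hq, h3⟩)
      obtain ⟨s, hs, _, hy, x', u', y, e', rfl, h6, h7⟩ := genD C .nopn2 (C.three hn hx hu) hq
        fun r hr => by
          obtain ⟨y, s, s1, s2, s3⟩ := h4 r hr u
          obtain ⟨t, t1, t2⟩ := out_of_not s3
          exact ⟨t, t1.trans s1, _, x, u, y, rfl, rfl, s2.mono t1, t2⟩
      simp only [List.tail_cons, List.cons.injEq, and_true] at e'
      obtain rfl : x = x' := chk_inj e'.1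
      obtain rfl : u = u' := chk_inj e'.2
      exact not_mem_of_out hn hy hs h7 (h5 y hy ⟨s, hs, h6⟩)
    · refine ⟨⟨(S, p), fun x q hq h3 => ?_⟩, hn, hp, rfl⟩
      by_contra hc
      push Not at hc
      exact h q hq _ ⟨x, rfl, h3, hc⟩

theorem exists_basic {x : Gp} {u : Finset Ix} (hx : GN C x) (hu : UN C u) :
    ∃ B ∈ C.val topN, ∀ z, z ∈ B ↔ ∃ y, GN C y ∧ ZG C u (y - x) ∧ z = pi C y := by
  have hn : subN {z | Zr u (z.1 - x) z.2} ∈ C.N :=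
    gfun C .basic (C.two hx hu) fun _ _ => ⟨fun ⟨a, b, h, e⟩ => by
      simp only [List.cons.injEq, and_true] at h
      rw [e, chk_inj h.1, chk_inj h.2], fun e => ⟨x, u, rfl, e⟩⟩
  have h : ∀ z, z ∈ C.val (subN {z | Zr u (z.1 - x) z.2}) ↔
      ∃ y, GN C y ∧ ZG C u (y - x) ∧ z = pi C y := by
    intro z
    rw [mem_subN]
    exact ⟨fun ⟨y, p, h1, h2, h3, h4⟩ => ⟨y, h2, ⟨p, h3, h1⟩, h4⟩,
      fun ⟨y, h2, ⟨p, h3, h1⟩, h4⟩ => ⟨y, p, h1, h2, h3, h4⟩⟩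
  refine ⟨_, mem_top.2 ⟨C.val_mem_M hn, fun z hz => ?_, fun y hy hm => ⟨u, hu, fun y' hy' h1 =>
    ?_⟩⟩, h⟩
  · obtain ⟨y, hy, _, rfl⟩ := (h z).1 hz
    exact hy.mem
  · obtain ⟨y'', h2, h3, h4⟩ := (h _).1 hm
    obtain rfl := pi_inj hy h2 h4
    exact (h _).2 ⟨y', hy', (h1.add h3).of_eq (by abel), rfl⟩

theorem inter_mem_M {U V : ZFSet} (hU : U ∈ C.M) (hV : V ∈ C.M) : U ∩ V ∈ C.M := by
  have h := C.sep_mem (.mem 0 1) [V] (by simpa using hV) U hU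
  have e : U ∩ V = ZFSet.sep (fun x => Sat C.M (.mem 0 1) (x :: [V])) U := by
    ext z
    simp [Sat]
  rwa [e]

theorem groupTop : GroupTop C.M (Gz C) (addZ C) (pi C 0) (C.val topN) where
  mem := C.val_mem_M (gfun C .top C.nil fun _ _ => Iff.rfl)
  top := by
    refine ⟨fun U hU => (mem_top.1 hU).2.1, mem_top.2 ⟨abGrp.mem, fun _ h => h,
      fun x _ _ => ⟨∅, un_empty, fun y hy _ => hy.mem⟩⟩, fun U hU V hV => ?_, fun S hS h => ?_⟩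
    · obtain ⟨a1, a2, a3⟩ := mem_top.1 hU
      obtain ⟨b1, b2, b3⟩ := mem_top.1 hV
      refine mem_top.2 ⟨inter_mem_M a1 b1, fun z hz => a2 (ZFSet.mem_inter.1 hz).1,
        fun x hx hm => ?_⟩
      obtain ⟨u, u1, u2⟩ := a3 x hx (ZFSet.mem_inter.1 hm).1
      obtain ⟨v, v1, v2⟩ := b3 x hx (ZFSet.mem_inter.1 hm).2
      exact ⟨u ∪ v, u1.union v1, fun y hy ⟨p, hp, h⟩ => ZFSet.mem_inter.2
        ⟨u2 y hy ⟨p, hp, h.subset Finset.subset_union_left⟩,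
          v2 y hy ⟨p, hp, h.subset Finset.subset_union_right⟩⟩⟩
    · refine mem_top.2 ⟨C.union_mem S hS, fun z hz => ?_, fun x hx hm => ?_⟩
      · obtain ⟨U, hU, hz⟩ := ZFSet.mem_sUnion.1 hz
        exact (mem_top.1 (h hU)).2.1 hz
      · obtain ⟨U, hU, hm⟩ := ZFSet.mem_sUnion.1 hm
        obtain ⟨u, u1, u2⟩ := (mem_top.1 (h hU)).2.2 x hx hm
        exact ⟨u, u1, fun y hy h' => ZFSet.mem_sUnion.2 ⟨U, hU, u2 y hy h'⟩⟩
  t2 := by
    intro _ hx0 _ hy0 hne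
    obtain ⟨x, hx, rfl⟩ := mem_Gz.1 hx0
    obtain ⟨y, hy, rfl⟩ := mem_Gz.1 hy0
    have h0 : x - y ≠ 0 := fun h => hne (by rw [sub_eq_zero.1 h])
    obtain ⟨p, hp, _, hu, z, i, e, rfl, h1, h2⟩ := genD C .sep (C.one (hx.sub hy)) C.top
      fun q _ => by
        obtain ⟨r, r1, i, r2⟩ := sep_dense h0 q
        exact ⟨r, r1, _, _, i, rfl, rfl, r2⟩
    simp only [List.cons.injEq, and_true] at e
    obtain rfl : x - y = z := chk_inj e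
    obtain ⟨U, u1, u2⟩ := exists_basic hx hu
    obtain ⟨V, v1, v2⟩ := exists_basic hy hu
    refine ⟨U, u1, V, v1, (u2 _).2 ⟨x, hx, (zg_zero _).of_eq (by simp), rfl⟩,
      (v2 _).2 ⟨y, hy, (zg_zero _).of_eq (by simp), rfl⟩, fun z h3 h4 => ?_⟩
    obtain ⟨a, a1, a2, rfl⟩ := (u2 _).1 h3
    obtain ⟨b, b1, b2, b3⟩ := (v2 _).1 h4
    obtain rfl := pi_inj a1 b1 b3
    obtain ⟨q, hq, h5⟩ := (b2.sub a2).of_eq (show _ = x - y by abel)
    obtain ⟨r, _, r1, r2⟩ := C.dir p hp q hq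
    exact h2 ((h1.ev r1).symm.trans (h5 r r2 i (by simp) (h1.mono r1)))
  add_cont := by
    intro _ hx0 _ hy0 W hW hm
    obtain ⟨x, hx, rfl⟩ := mem_Gz.1 hx0
    obtain ⟨y, hy, rfl⟩ := mem_Gz.1 hy0
    rw [addZ_pi hx hy] at hm
    obtain ⟨u, hu, h⟩ := (mem_top.1 hW).2.2 _ (hx.add hy) hm
    obtain ⟨U, u1, u2⟩ := exists_basic hx hu
    obtain ⟨V, v1, v2⟩ := exists_basic hy hu
    refine ⟨U, u1, V, v1, (u2 _).2 ⟨x, hx, (zg_zero _).of_eq (by simp), rfl⟩,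
      (v2 _).2 ⟨y, hy, (zg_zero _).of_eq (by simp), rfl⟩, fun a ha b hb => ?_⟩
    obtain ⟨a, a1, a2, rfl⟩ := (u2 _).1 ha
    obtain ⟨b, b1, b2, rfl⟩ := (v2 _).1 hb
    rw [addZ_pi a1 b1]
    exact h _ (a1.add b1) ((a2.add b2).of_eq (by abel))
  neg_cont := by
    intro _ hx0 W hW _ hm e
    obtain ⟨x, hx, rfl⟩ := mem_Gz.1 hx0
    obtain ⟨y, hy, rfl⟩ := mem_Gz.1 ((mem_top.1 hW).2.1 hm)
    rw [addZ_pi hx hy] at e
    have e1 := pi_inj (hx.add hy) gn_zero e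
    obtain ⟨u, hu, h⟩ := (mem_top.1 hW).2.2 _ hy hm
    obtain ⟨U, u1, u2⟩ := exists_basic hx hu
    refine ⟨U, u1, (u2 _).2 ⟨x, hx, (zg_zero _).of_eq (by simp), rfl⟩, fun a ha b hb e' => ?_⟩
    obtain ⟨a, a1, a2, rfl⟩ := (u2 _).1 ha
    obtain ⟨b, b1, rfl⟩ := mem_Gz.1 hb
    rw [addZ_pi a1 b1] at e'
    have e2 := pi_inj (a1.add b1) gn_zero e'
    refine h b b1 (((zg_zero u).sub a2).of_eq ?_)
    rw [eq_neg_of_add_eq_zero_right e1, eq_neg_of_add_eq_zero_right e2]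
    abel

theorem codeN_mem (q : ℚ) : (codeN q : Nm) ∈ C.N :=
  C.pair_memN (C.natN_mem _) (C.pair_memN (C.natN_mem _) (C.natN_mem _))

theorem val_codeN (q : ℚ) : C.val (codeN q) = code q := by
  have h := codeN_mem (C := C) q
  rw [codeN, C.val_pairN h, C.val_pairN (C.pairN_right h), C.val_natN, C.val_natN, C.val_natN,
    code]

theorem val_cutN {r : ℝ} (h : (cutN r : Nm) ∈ C.N) : C.val (cutN r) = cut r := by
  ext x
  rw [cutN, C.mem_val_setN h, mem_cut]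
  exact ⟨fun ⟨q, e⟩ => ⟨q.1, q.2, by rw [e, val_codeN]⟩,
    fun ⟨q, hq, e⟩ => ⟨⟨q, hq⟩, by rw [e, val_codeN]⟩⟩

theorem decided {ι : Type} {A : ι → Nm} (hA : ∀ i, A i ∈ C.N) {σ : Nm} (hσ : σ ∈ C.N) {p : Cn}
    (hp : p ∈ C.G) (h : ∀ i, FMem (A i) σ p ∨ ∀ r ≤ p, ¬ FMem (A i) σ r) (i : ι) :
    FMem (A i) σ p ↔ C.val (A i) ∈ C.val σ := by
  rw [C.val_mem_iff (hA i) hσ]
  refine ⟨fun h' => ⟨p, hp, h'⟩, fun ⟨q, hq, h'⟩ => (h i).resolve_right fun h1 => ?_⟩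
  obtain ⟨r, _, r1, r2⟩ := C.dir p hp q hq
  exact h1 r r1 (h'.mono r2)

theorem cutN_mem {r : ℝ} (h : cut r ∈ C.M) : (cutN r : Nm) ∈ C.N := by
  obtain ⟨σ, hσ, e⟩ := C.mem_M.1 h
  obtain ⟨p, hp, _, hw, h1, rfl⟩ := genD C .rat (C.one hσ) C.top fun q _ => by
    obtain ⟨r, r1, r2⟩ := decide_all codeN σ q
    exact ⟨r, r1, _, r2, rfl⟩
  have e2 : {q : ℚ | FMem (codeN q) σ p} = {q : ℚ | (q : ℝ) < r} := by
    ext q
    simp only [mem_ofPred_eq]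
    rw [decided codeN_mem hσ hp h1, val_codeN, e, code_mem_cut]
  change ratN {q : ℚ | FMem (codeN q) σ p} ∈ C.N at hw
  rw [e2] at hw
  exact hw

theorem cut_inj {a b : ℝ} (h : cut a = cut b) : a = b :=
  eq_of_forall_rat_lt_iff_lt fun q => by rw [← code_mem_cut, h, code_mem_cut]

theorem snd_mem_M {a b : ZFSet} (h : ZFSet.pair a b ∈ C.M) : b ∈ C.M :=
  C.trans _ (C.trans _ h (show ({a, b} : ZFSet) ∈ ZFSet.pair a b by simp [ZFSet.pair]))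
    (by simp)

theorem pseudocompact : Pseudocompact C.M (Gz C) (C.val topN) := by
  rintro F ⟨⟨f, hf, hF⟩, hc⟩
  obtain ⟨φ, hφ, rfl⟩ := C.mem_M.1 hf
  have v1 : ∀ x, GN C x → ∃ r ∈ C.G, Val φ x (F (pi C x)) r := by
    intro x hx
    have m := (hF _).2 ⟨_, hx.mem, rfl⟩
    have h1 := cutN_mem (snd_mem_M (C.trans _ hf m))
    refine (C.val_mem_iff (C.pair_memN hx h1) hφ).1 ?_
    rw [C.val_pairN (C.pair_memN hx h1), val_cutN h1]
    exact m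
  have v2 : ∀ x a, pairN (chk x) (cutN a) ∈ C.N → ∀ p ∈ C.G, Val φ x a p → F (pi C x) = a := by
    intro x a h p hp hv
    have m := (C.val_mem_iff h hφ).2 ⟨p, hp, hv⟩
    rw [C.val_pairN h, val_cutN (C.pairN_right h)] at m
    obtain ⟨z, _, e⟩ := (hF _).1 m
    rw [ZFSet.pair_inj] at e
    rw [pi, e.1, cut_inj e.2]
  obtain ⟨q, hq, w, hw, ⟨n, h⟩ | ⟨x, rfl, h⟩ | ⟨x, a, rfl, h1, h2⟩⟩ :=
    genD C .pc (C.one hφ) C.top fun p _ => by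
      obtain ⟨q, q1, h | ⟨x, h⟩ | ⟨x, a, h⟩⟩ := pc_dense (Val φ) p
      exacts [⟨q, q1, empty, Or.inl h⟩, ⟨q, q1, _, Or.inr (Or.inl ⟨x, rfl, h⟩)⟩,
        ⟨q, q1, _, Or.inr (Or.inr ⟨x, a, rfl, h⟩)⟩]
  · refine ⟨n, fun z hz => ?_⟩
    obtain ⟨x, hx, rfl⟩ := mem_Gz.1 hz
    obtain ⟨r, hr, h1⟩ := v1 x hx
    obtain ⟨s, _, s1, s2⟩ := C.dir q hq r hr
    exact h x _ s s1 (h1.mono s2)
  · obtain ⟨r, hr, h1⟩ := v1 x hw
    obtain ⟨s, _, s1, s2⟩ := C.dir q hq r hr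
    exact (h s s1 _ (h1.mono s2)).elim
  · exfalso
    have hx : GN C x := C.pairN_left (C.pairN_left hw)
    have e1 := v2 x a (C.pairN_left hw) q hq h1
    obtain ⟨U, u1, u2, u3⟩ := hc _ hx.mem 1 one_pos
    obtain ⟨u, hu, h3⟩ := (mem_top.1 u1).2.2 x hx u2
    obtain ⟨s, hs, _, hw', x', u', y, a', b, e, rfl, h4, h5, h6⟩ := genD C .pc2
      (C.cons hφ (C.three hx hu (C.pairN_right hw))) hq fun r hr => by
        obtain ⟨s, s1, y, b, s2⟩ := h2 u r hr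
        exact ⟨s, s1, _, x, u, y, a, b, rfl, rfl, s2⟩
    simp only [List.tail_cons, List.cons.injEq, and_true] at e
    obtain rfl : x = x' := chk_inj e.1
    obtain rfl : u = u' := chk_inj e.2.1
    obtain rfl : a = a' := chk_inj e.2.2
    have h7 := u3 _ (h3 y (C.pairN_left hw') ⟨s, hs, h4⟩)
    rw [v2 y b hw' s hs h5, e1, abs_sub_comm] at h7
    exact absurd h6 (not_le.2 h7)

end Pool.Agent.Lib.MP_fe6d4f_gt
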