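import Mathlib
import Pool.Agent.Lib.MP_fe6d4f_gt.Model

/-!
In the generic extension no group topology on the group has a winning stationary strategy.
-/

namespace Pool.Agent.Lib.MP_fe6d4f_gt

open Set Classical Pool.Agent.Lib.MP_053343_lc Pool.Agent.Lib.MP_053343_lc.Name
  Pool.Agent.Shared.Forcing

variable {C : Cx}

theorem open_name {t : Nm} (ht : t ∈ C.N) {U : ZFSet} (hU : U ∈ C.val t) :
    ∃ σ ∈ C.N, C.val σ = U ∧ ∃ p ∈ C.G, FMem σ t p := by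
  obtain ⟨σ, hσ, rfl⟩ := C.mem_M.1 (C.trans _ (C.val_mem_M ht) hU)
  exact ⟨σ, hσ, rfl, (C.val_mem_iff hσ ht).1 hU⟩

theorem graph_mem {φ : ℕ → ℕ} (h : SeqIn C.M fun n => nat (φ n)) :
    (chk {z : ℕ × ℕ | z.2 = φ z.1} : Nm) ∈ C.N := by
  obtain ⟨g, hg, h⟩ := h
  obtain ⟨σ, hσ, rfl⟩ := C.mem_M.1 hg
  obtain ⟨p, hp, _, hw, h1, rfl⟩ := genD C .gr (C.one hσ) C.top fun q _ => by
    obtain ⟨r, r1, r2⟩ := decide_all (fun z : ℕ × ℕ => pairN (natN z.1) (natN z.2)) σ q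
    exact ⟨r, r1, _, r2, rfl⟩
  have hm : ∀ z : ℕ × ℕ, (pairN (natN z.1) (natN z.2) : Nm) ∈ C.N := fun z =>
    C.pair_memN (C.natN_mem _) (C.natN_mem _)
  have e2 : {z : ℕ × ℕ | FMem (pairN (natN z.1) (natN z.2)) σ p} = {z | z.2 = φ z.1} := by
    ext z
    simp only [mem_ofPred_eq]
    rw [decided hm hσ hp h1, C.val_pairN (hm z), C.val_natN, C.val_natN, h]
    constructor
    · rintro ⟨n, e⟩
      rw [ZFSet.pair_inj] at e
      rw [nat_inj e.1, nat_inj e.2]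
    · intro e
      exact ⟨z.1, by rw [e]⟩
  change chk {z : ℕ × ℕ | FMem (pairN (natN z.1) (natN z.2)) σ p} ∈ C.N at hw
  rwa [e2] at hw

theorem not_wins {τ : ZFSet} (hτ : GroupTop C.M (Gz C) (addZ C) (pi C 0) τ) :
    ¬ WinsSsp C.M (Gz C) τ := by
  rintro ⟨s, ⟨g, hg, hgs⟩, hs, hw⟩
  obtain ⟨t, ht, rfl⟩ := C.mem_M.1 hτ.mem
  obtain ⟨sn, hsn, rfl⟩ := C.mem_M.1 hg
  have hsub := hτ.top.1
  obtain ⟨p, hp, w, hw', ⟨x, rfl, h1, h2⟩ | ⟨U, x, y, rfl, h1, h2, h3⟩ | ⟨U, V, rfl, h1, h2, h3⟩ |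
    ⟨U, x, rfl, h1, h2, h3⟩ | ⟨U, d, rfl, h1, h2⟩⟩ :=
    genD C .fail (C.two ht hsn) C.top fun q _ => fail_dense t sn q
  · have hx : GN C x := hw'
    obtain ⟨U, u1, V, v1, a1, a2, a3⟩ := hτ.t2 _ gn_zero.mem _ hx.mem
      fun e => h1 (pi_inj gn_zero hx e).symm
    obtain ⟨σ, hσ, rfl, q1, b1, c1⟩ := open_name ht u1
    obtain ⟨q2, b2, c2⟩ := (in_iff hσ gn_zero).1 a1
    obtain ⟨q3, b3, c3⟩ := out_of_not_mem hσ hx fun h => a3 _ h a2
    obtain ⟨r, hr, r1, r2, r3⟩ := C.dir3 b1 b2 b3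
    obtain ⟨v, _, w1, w2⟩ := C.dir p hp r hr
    exact h2 v w1 σ ⟨c1.mono (w2.trans r1), c2.mono (w2.trans r2),
      fun z hz h => h.not_out (c3.mono (hz.trans (w2.trans r3)))⟩
  · have hU := C.pairN_left hw'
    have hx : GN C x := C.pairN_left (C.pairN_right hw')
    have hy : GN C y := C.pairN_right (C.pairN_right hw')
    have m1 := (C.val_mem_iff hU ht).2 ⟨p, hp, h1⟩
    have m2 := (in_iff hU (hx.sub hy)).2 ⟨p, hp, h2⟩
    rw [sub_eq_add_neg, ← addZ_pi hx hy.neg] at m2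
    obtain ⟨V, v1, W', w1, a1, a2, a3⟩ := hτ.add_cont _ hx.mem _ hy.neg.mem _ m1 m2
    obtain ⟨W, w2, a4, a5⟩ := hτ.neg_cont _ hy.mem _ w1 _ a2
      (by rw [addZ_pi hy hy.neg, add_neg_cancel])
    obtain ⟨σ, hσ, rfl, q1, b1, c1⟩ := open_name ht v1
    obtain ⟨ρ, hρ, rfl, q2, b2, c2⟩ := open_name ht w2
    obtain ⟨q3, b3, c3⟩ := (in_iff hσ hx).1 a1
    obtain ⟨q4, b4, c4⟩ := (in_iff hρ hy).1 a4
    rcases gen C .incl (C.three hU hσ hρ) with ⟨q, hq, _, hz, x', y', rfl, d1, d2, d3⟩ |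
      ⟨q5, b5, c5⟩
    · have hx' : GN C x' := C.pairN_left hz
      have hy' : GN C y' := C.pairN_right hz
      refine not_mem_of_out hU (hx'.sub hy') hq d3 ?_
      rw [sub_eq_add_neg, ← addZ_pi hx' hy'.neg]
      exact a3 _ ((in_iff hσ hx').2 ⟨q, hq, d1⟩) _ (a5 _ ((in_iff hρ hy').2 ⟨q, hq, d2⟩) _
        hy'.neg.mem (by rw [addZ_pi hy' hy'.neg, add_neg_cancel]))
    · obtain ⟨r, hr, r1, r2, r3⟩ := C.dir3 b1 b2 b3
      obtain ⟨r', hr', r4, r5, r6⟩ := C.dir3 b4 b5 hp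
      obtain ⟨v, _, e1, e2⟩ := C.dir r hr r' hr'
      exact h3 v (e2.trans r6) σ ρ ⟨c1.mono (e1.trans r1), c2.mono (e1.trans r2),
        c3.mono (e1.trans r3), c4.mono (e2.trans r4), fun x' y' z hz d1 d2 =>
          in_of_forall fun z' hz' d3 => c5 z' (hz'.trans (hz.trans (e2.trans r5))) _
            ⟨x', y', rfl, d1.mono hz', d2.mono hz', d3⟩⟩
  · have hU := C.pairN_left hw'
    have hV := C.pairN_right hw'
    have m1 := (C.val_mem_iff hU ht).2 ⟨p, hp, h1⟩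
    have m2 := (C.val_mem_iff hV ht).2 ⟨p, hp, h2⟩
    obtain ⟨σ, hσ, e, q1, b1, c1⟩ := open_name ht (hτ.top.2.2.1 _ m1 _ m2)
    rcases gen C .inter (C.three hU hV hσ) with ⟨q, hq, _, hx, x, rfl, d⟩ | ⟨q2, b2, c2⟩
    · rcases d with ⟨d1, d2⟩ | ⟨d1, d2, d3⟩
      · have := (in_iff hσ hx).2 ⟨q, hq, d1⟩
        rw [e, ZFSet.mem_inter] at this
        rcases d2 with d2 | d2
        exacts [not_mem_of_out hU hx hq d2 this.1, not_mem_of_out hV hx hq d2 this.2]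
      · refine not_mem_of_out hσ hx hq d3 ?_
        rw [e, ZFSet.mem_inter]
        exact ⟨(in_iff hU hx).2 ⟨q, hq, d1⟩, (in_iff hV hx).2 ⟨q, hq, d2⟩⟩
    · obtain ⟨r, _, r1, r2, r3⟩ := C.dir3 b1 b2 hp
      refine h3 r r3 σ ⟨c1.mono r1, fun x z hz => ⟨fun d1 => ⟨in_of_forall fun z' hz' d2 => ?_,
        in_of_forall fun z' hz' d2 => ?_⟩, fun d1 => in_of_forall fun z' hz' d2 => ?_⟩⟩
      · exact c2 z' (hz'.trans (hz.trans r2)) _ ⟨x, rfl, Or.inl ⟨d1.mono hz', Or.inl d2⟩⟩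
      · exact c2 z' (hz'.trans (hz.trans r2)) _ ⟨x, rfl, Or.inl ⟨d1.mono hz', Or.inr d2⟩⟩
      · exact c2 z' (hz'.trans (hz.trans r2)) _
          ⟨x, rfl, Or.inr ⟨d1.1.mono hz', d1.2.mono hz', d2⟩⟩
  · have hU := C.pairN_left hw'
    have hx : GN C x := C.pairN_right hw'
    have m1 := (C.val_mem_iff hU ht).2 ⟨p, hp, h1⟩
    have m2 := (in_iff hU hx).2 ⟨p, hp, h2⟩
    have hne : C.val U ≠ ∅ := fun e => by simp [e] at m2
    have m3 := hs _ m1 hne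
    obtain ⟨d, hd, e⟩ := mem_Gz.1 (hsub _ m1 m3)
    have m4 := (hgs _).2 ⟨_, m1, hne, rfl⟩
    rw [e] at m3 m4
    obtain ⟨q1, b1, c1⟩ := (in_iff hU hd).1 m3
    obtain ⟨q2, b2, c2⟩ := (C.val_mem_iff (C.pair_memN hU hd) hsn).1
      (by rw [C.val_pairN (C.pair_memN hU hd)]; exact m4)
    obtain ⟨r, _, r1, r2, r3⟩ := C.dir3 b1 b2 hp
    exact h3 r r3 d ⟨⟨U, h1.mono r3, c2.mono r2, c1.mono r1⟩, c1.mono r1⟩
  · have hS := C.pairN_left hw'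
    have hP : ∀ n, pairN (natN n) (U n) ∈ C.N := C.setN_child hS
    have hU : ∀ n, U n ∈ C.N := fun n => C.pairN_right (hP n)
    have hd : ∀ n, GN C (d n) := C.setN_child (C.pairN_left (C.pairN_right hw'))
    have hdd := C.pairN_right (C.pairN_right hw')
    have m1 : ∀ n, C.val (U n) ∈ C.val t := fun n =>
      (C.val_mem_iff (hU n) ht).2 ⟨p, hp, (h1 n).1⟩
    have m2 : ∀ n, C.val (U n) ≠ ∅ := fun n e => by
      have := (in_iff (hU n) (hd n)).2 ⟨p, hp, (h1 n).2.2⟩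
      simp [e] at this
    have m3 : ∀ n, s (C.val (U n)) = pi C (d n) := by
      intro n
      have := (C.val_mem_iff (C.pair_memN (hU n) (hd n)) hsn).2 ⟨p, hp, (h1 n).2.1⟩
      rw [C.val_pairN (C.pair_memN (hU n) (hd n))] at this
      obtain ⟨V, _, _, e⟩ := (hgs _).1 this
      rw [ZFSet.pair_inj] at e
      rw [e.1]
      exact e.2.symm
    obtain ⟨_, hx0, φ, f1, f2, f3⟩ := hw (fun n => C.val (U n)) ⟨_, C.val_mem_M hS, fun z => by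
      rw [seqN, C.mem_val_setN hS]
      exact exists_congr fun n => by rw [C.val_pairN (hP n), C.val_natN]⟩ fun n => ⟨m1 n, m2 n⟩
    obtain ⟨x, hx, rfl⟩ := mem_Gz.1 hx0
    obtain ⟨q, hq, V, hV, d', x', φ', e, a1, a2, a3⟩ := genD C .nconv
      (C.cons ht (C.three hdd hx (graph_mem f2))) hp fun r hr => by
        obtain ⟨V, q, q1, q2⟩ := h2 r hr x φ f1
        exact ⟨q, q1, V, d, x, φ, rfl, q2⟩
    simp only [List.tail_cons, List.cons.injEq, and_true] at e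
    obtain rfl : d = d' := chk_inj e.1
    obtain rfl : x = x' := chk_inj e.2.1
    obtain rfl : φ = φ' := funext fun n =>
      (Set.ext_iff.1 (chk_inj e.2.2) (n, φ n)).1 rfl
    obtain ⟨N, hN⟩ := f3 _ ((C.val_mem_iff hV ht).2 ⟨q, hq, a1⟩) ((in_iff hV hx).2 ⟨q, hq, a2⟩)
    obtain ⟨n, n1, n2⟩ := a3 N
    have := hN n n1
    rw [m3] at this
    obtain ⟨r, hr, h3⟩ := (in_iff hV (hd _)).1 this
    obtain ⟨v, _, v1, v2⟩ := C.dir q hq r hr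
    exact n2 v v1 (h3.mono v2)

end Pool.Agent.Lib.MP_fe6d4f_gt
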